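import Mathlib

/-!
# A Bloch type lemma
-/

set_option autoImplicit false

open Set Filter Topology Metric

namespace Pool.Agent.Helper134.FD

/-- A holomorphic function with a large derivative takes, at a point where the derivative is still
large, a value far from a given finite set. -/
theorem bloch {W : ℂ → ℂ} {t : ℝ} (ht : 0 < t) (hW : DifferentiableOn ℂ W (ball 0 (2 * t)))
    {x : ℝ} (hx : 0 < x) (hex : ∃ ζ ∈ closedBall (0 : ℂ) t, x ≤ (t - ‖ζ‖) * ‖deriv W ζ‖)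
    (A : Finset ℂ) :
    ∃ M : ℝ, x ≤ M ∧ (∃ ζ₀ ∈ closedBall (0 : ℂ) t, M = (t - ‖ζ₀‖) * ‖deriv W ζ₀‖) ∧
      ∃ τ : ℝ, 0 < τ ∧ τ ≤ t ∧ ∃ ζ : ℂ, ‖ζ‖ ≤ t - τ / 2 ∧ M / (2 * τ) ≤ ‖deriv W ζ‖ ∧
        ∀ y ∈ A, M / (64 * (A.card + 1)) ≤ ‖W ζ - y‖ := by
  have hsub : closedBall (0 : ℂ) t ⊆ ball 0 (2 * t) := by
    intro ζ hζ
    rw [mem_closedBall_zero_iff] at hζ
    rw [mem_ball_zero_iff]
    linarith
  have hg : DifferentiableOn ℂ (deriv W) (ball 0 (2 * t)) := hW.deriv isOpen_ball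
  have hφ : ContinuousOn (fun ζ : ℂ => (t - ‖ζ‖) * ‖deriv W ζ‖) (closedBall 0 t) := by
    apply ContinuousOn.mul
    · fun_prop
    · exact (hg.continuousOn.mono hsub).norm
  obtain ⟨ζ₀, hζ₀, hmax⟩ := (isCompact_closedBall (0 : ℂ) t).exists_isMaxOn
    ⟨0, by simp [ht.le]⟩ hφ
  set M : ℝ := (t - ‖ζ₀‖) * ‖deriv W ζ₀‖ with hM
  have hxM : x ≤ M := by
    obtain ⟨ζ, hζ, h⟩ := hex
    exact h.trans (hmax hζ)
  have hM0 : 0 < M := hx.trans_le hxM
  set τ : ℝ := t - ‖ζ₀‖ with hτ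
  have hτ0 : 0 < τ := by
    by_contra h
    push Not at h
    have : M ≤ 0 := mul_nonpos_of_nonpos_of_nonneg h (norm_nonneg _)
    linarith
  have hτt : τ ≤ t := by
    have := norm_nonneg ζ₀
    rw [hτ]; linarith
  have hd0 : ‖deriv W ζ₀‖ = M / τ := by
    rw [hM]; field_simp
  have hin : ∀ ζ ∈ ball ζ₀ (τ / 2), ‖ζ‖ ≤ t - τ / 2 := by
    intro ζ hζ
    rw [mem_ball, dist_eq_norm] at hζ
    have h1 : ‖ζ‖ ≤ ‖ζ - ζ₀‖ + ‖ζ₀‖ := by
      have := norm_add_le (ζ - ζ₀) ζ₀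
      rwa [sub_add_cancel] at this
    have h2 : ‖ζ₀‖ = t - τ := by rw [hτ]; ring
    linarith
  have hbd : ∀ ζ ∈ ball ζ₀ (τ / 2), ‖deriv W ζ‖ ≤ 2 * M / τ := by
    intro ζ hζ
    have h1 := hin ζ hζ
    have h2 : ζ ∈ closedBall (0 : ℂ) t := by
      rw [mem_closedBall_zero_iff]; linarith
    have h3 : (t - ‖ζ‖) * ‖deriv W ζ‖ ≤ M := hmax h2
    have h4 : τ / 2 * ‖deriv W ζ‖ ≤ M := by
      refine le_trans ?_ h3
      apply mul_le_mul_of_nonneg_right _ (norm_nonneg _)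
      linarith
    rw [le_div_iff₀ hτ0]
    linarith
  have hsub2 : ball ζ₀ (τ / 2) ⊆ ball (0 : ℂ) (2 * t) := by
    intro ζ hζ
    apply hsub
    rw [mem_closedBall_zero_iff]
    have := hin ζ hζ
    linarith
  have hmaps : MapsTo (deriv W) (ball ζ₀ (τ / 2)) (closedBall (deriv W ζ₀) (4 * M / τ)) := by
    intro ζ hζ
    rw [mem_closedBall, dist_eq_norm]
    have h1 := hbd ζ hζ
    have h2 := norm_sub_le (deriv W ζ) (deriv W ζ₀)
    rw [hd0] at h2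
    have h3 : 2 * M / τ + M / τ ≤ 4 * M / τ := by
      rw [← add_div]
      apply div_le_div_of_nonneg_right _ hτ0.le
      linarith
    linarith
  have hsch : ∀ ζ ∈ ball ζ₀ (τ / 2), ‖deriv W ζ - deriv W ζ₀‖ ≤ 8 * M / τ ^ 2 * ‖ζ - ζ₀‖ := by
    intro ζ hζ
    have h1 := Complex.dist_le_div_mul_dist_of_mapsTo_ball (hg.mono hsub2) hmaps hζ
    rw [dist_eq_norm, dist_eq_norm] at h1
    refine h1.trans (le_of_eq ?_)
    field_simp
    ring
  have hnear : ∀ ζ ∈ ball ζ₀ (τ / 16), ‖deriv W ζ - deriv W ζ₀‖ ≤ M / (2 * τ) := by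
    intro ζ hζ
    have h0 : ζ ∈ ball ζ₀ (τ / 2) := ball_subset_ball (by linarith) hζ
    rw [mem_ball, dist_eq_norm] at hζ
    refine (hsch ζ h0).trans ?_
    calc 8 * M / τ ^ 2 * ‖ζ - ζ₀‖ ≤ 8 * M / τ ^ 2 * (τ / 16) := by
          gcongr
      _ = M / (2 * τ) := by field_simp; ring
  have hlow : ∀ ζ ∈ ball ζ₀ (τ / 16), M / (2 * τ) ≤ ‖deriv W ζ‖ := by
    intro ζ hζ
    have h1 := hnear ζ hζ
    have h2 := norm_sub_norm_le (deriv W ζ₀) (deriv W ζ)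
    rw [norm_sub_rev, hd0] at h2
    have h3 : M / τ = M / (2 * τ) + M / (2 * τ) := by
      rw [← add_div, div_eq_div_iff hτ0.ne' (by positivity)]; ring
    linarith
  have hsub3 : ball ζ₀ (τ / 16) ⊆ ball (0 : ℂ) (2 * t) :=
    (ball_subset_ball (by linarith)).trans hsub2
  have hexp : ∀ ζ ∈ ball ζ₀ (τ / 16), ∀ ζ' ∈ ball ζ₀ (τ / 16),
      M / (2 * τ) * ‖ζ - ζ'‖ ≤ ‖W ζ - W ζ'‖ := by
    intro ζ hζ ζ' hζ'
    have hd : ∀ z ∈ ball ζ₀ (τ / 16), HasDerivWithinAt (fun z => W z - deriv W ζ₀ * z)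
        (deriv W z - deriv W ζ₀) (ball ζ₀ (τ / 16)) z := by
      intro z hz
      have h1 : HasDerivAt W (deriv W z) z :=
        ((hW z (hsub3 hz)).differentiableAt (isOpen_ball.mem_nhds (hsub3 hz))).hasDerivAt
      have h2 := h1.fun_sub ((hasDerivAt_id z).const_mul (deriv W ζ₀))
      simp only [id, mul_one] at h2
      exact h2.hasDerivWithinAt
    have h1 := (convex_ball ζ₀ (τ / 16)).norm_image_sub_le_of_norm_hasDerivWithin_le hd
      (fun z hz => hnear z hz) hζ' hζ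
    have h2 : W ζ - deriv W ζ₀ * ζ - (W ζ' - deriv W ζ₀ * ζ') =
        (W ζ - W ζ') - deriv W ζ₀ * (ζ - ζ') := by ring
    rw [h2] at h1
    have h3 := norm_sub_norm_le (deriv W ζ₀ * (ζ - ζ')) (W ζ - W ζ')
    rw [norm_mul, hd0, norm_sub_rev (deriv W ζ₀ * (ζ - ζ'))] at h3
    have h5 : M / τ = M / (2 * τ) + M / (2 * τ) := by
      rw [← add_div, div_eq_div_iff hτ0.ne' (by positivity)]; ring
    have h4 : M / τ * ‖ζ - ζ'‖ = M / (2 * τ) * ‖ζ - ζ'‖ + M / (2 * τ) * ‖ζ - ζ'‖ := by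
      rw [h5, add_mul]
    linarith
  -- the points
  obtain ⟨N, hN⟩ : ∃ N : ℝ, N = A.card + 1 := ⟨_, rfl⟩
  have hN0 : 0 < N := by rw [hN]; exact_mod_cast Nat.succ_pos _
  rw [← hN]
  have hM' : M = (t - ‖ζ₀‖) * ‖deriv W ζ₀‖ := by rw [hM]
  clear_value τ M
  set pt : ℕ → ℂ := fun i => ζ₀ + ((i / N * (τ / 16) : ℝ) : ℂ) with hpt
  have hptin : ∀ i : ℕ, i ∈ Finset.range (A.card + 1) → pt i ∈ ball ζ₀ (τ / 16) := by
    intro i hi
    rw [mem_ball, dist_eq_norm, hpt]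
    simp only [add_sub_cancel_left]
    rw [Complex.norm_real, Real.norm_eq_abs, abs_of_nonneg (by positivity)]
    have h1 : (i : ℝ) < N := by
      rw [hN]
      exact_mod_cast Finset.mem_range.1 hi
    have h2 : (i : ℝ) / N < 1 := by rw [div_lt_one hN0]; exact h1
    calc (i : ℝ) / N * (τ / 16) < 1 * (τ / 16) := by gcongr
      _ = τ / 16 := one_mul _
  have hdist : ∀ i j : ℕ, i ≠ j → τ / (16 * N) ≤ ‖pt i - pt j‖ := by
    intro i j hij
    have h1 : pt i - pt j = ((((i : ℝ) - j) * (τ / (16 * N)) : ℝ) : ℂ) := by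
      have h0 : ((i : ℝ) - j) * (τ / (16 * N)) = i / N * (τ / 16) - j / N * (τ / 16) := by
        field_simp
      rw [h0, hpt]
      push_cast
      ring
    rw [h1, Complex.norm_real, Real.norm_eq_abs, abs_mul,
      abs_of_nonneg (by positivity : 0 ≤ τ / (16 * N))]
    have h2 : (1 : ℝ) ≤ |(i : ℝ) - j| := by
      have h3 : (1 : ℤ) ≤ |(i : ℤ) - j| := by
        apply Int.one_le_abs
        omega
      have h4 : ((1 : ℤ) : ℝ) ≤ ((|(i : ℤ) - j| : ℤ) : ℝ) := by exact_mod_cast h3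
      simpa using h4
    calc τ / (16 * N) = 1 * (τ / (16 * N)) := (one_mul _).symm
      _ ≤ |(i : ℝ) - j| * (τ / (16 * N)) := by gcongr
  have hgood : ∃ i ∈ Finset.range (A.card + 1), ∀ y ∈ A, M / (64 * N) ≤ ‖W (pt i) - y‖ := by
    by_contra hcon
    push Not at hcon
    choose! y hyA hy using hcon
    obtain ⟨i, hi, j, hj, hij, heq⟩ := Finset.exists_ne_map_eq_of_card_lt_of_maps_to
      (s := Finset.range (A.card + 1)) (t := A) (by simp) (f := y) hyA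
    have h1 := hy i hi
    have h2 := hy j hj
    rw [← heq] at h2
    have h3 := hexp _ (hptin i hi) _ (hptin j hj)
    have h4 : ‖W (pt i) - W (pt j)‖ ≤ ‖W (pt i) - y i‖ + ‖W (pt j) - y i‖ := by
      have := norm_sub_le (W (pt i) - y i) (W (pt j) - y i)
      rwa [sub_sub_sub_cancel_right] at this
    have h5 : M / (2 * τ) * (τ / (16 * N)) ≤ M / (2 * τ) * ‖pt i - pt j‖ := by
      apply mul_le_mul_of_nonneg_left (hdist i j hij) (by positivity)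
    have h6 : M / (2 * τ) * (τ / (16 * N)) = M / (64 * N) + M / (64 * N) := by
      field_simp
      ring
    linarith
  obtain ⟨i, hi, hA⟩ := hgood
  refine ⟨M, hxM, ⟨ζ₀, hζ₀, hM'⟩, τ, hτ0, hτt, pt i, ?_, hlow _ (hptin i hi), hA⟩
  exact hin _ (ball_subset_ball (by linarith) (hptin i hi))

end Pool.Agent.Helper134.FD
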