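import Mathlib
import Pool.Agent.H762R2.RtC
import Pool.Agent.Helper134_FD.Bloch

/-!
# Growth of the derivative of the marked orbit
-/

set_option autoImplicit false

open Set Filter Topology Metric

namespace Pool.Agent.Helper134.FD

open Pool.Agent.H762R2.Rt

/-- The marked orbit as a function of the logarithm of the parameter. -/
noncomputable def W (P Q : Polynomial ℂ) (s : ℂ) (n : ℕ) (v : ℂ) : ℕ → ℂ → ℂ
  | 0 => fun ζ => v * Complex.exp ζ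
  | k + 1 => fun ζ => Complex.exp ζ *
      (s * P.eval (W P Q s n v k ζ) / Q.eval (W P Q s n v k ζ)) ^ n

variable {P Q : Polynomial ℂ} {s v : ℂ} {n m : ℕ} {ρ t c : ℝ}

theorem W_zero (ζ : ℂ) : W P Q s n v 0 ζ = v * Complex.exp ζ := rfl

theorem W_succ (k : ℕ) (ζ : ℂ) : W P Q s n v (k + 1) ζ = Complex.exp ζ *
    (s * P.eval (W P Q s n v k ζ) / Q.eval (W P Q s n v k ζ)) ^ n := rfl

theorem ne_of_succ (hn : 1 ≤ n) {k : ℕ} {ζ : ℂ} (h : W P Q s n v (k + 1) ζ ≠ 0) :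
    s ≠ 0 ∧ P.eval (W P Q s n v k ζ) ≠ 0 ∧ Q.eval (W P Q s n v k ζ) ≠ 0 := by
  rw [W_succ] at h
  have hn0 : n ≠ 0 := by omega
  refine ⟨?_, ?_, ?_⟩
  · rintro rfl
    apply h
    simp [hn0]
  · intro h0
    apply h
    rw [h0]
    simp [hn0]
  · intro h0
    apply h
    rw [h0]
    simp [hn0]

theorem alg {E s p q p' q' d : ℂ} (j : ℕ) (hp : p ≠ 0) (hq : q ≠ 0) :
    E * (s * p / q) ^ (j + 1) + E * (((j + 1 : ℕ) : ℂ) * (s * p / q) ^ (j + 1 - 1) *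
      ((s * (p' * d) * q - s * p * (q' * d)) / q ^ 2)) =
    E * (s * p / q) ^ (j + 1) * (1 + ((j + 1 : ℕ) : ℂ) * ((p' * q - p * q') / (p * q)) * d) := by
  have h : (s * (p' * d) * q - s * p * (q' * d)) / q ^ 2 =
      (s * p / q) * ((p' * q - p * q') / (p * q)) * d := by
    field_simp
  rw [h, Nat.add_sub_cancel, pow_succ]
  ring

theorem hasDerivAt_succ (hn : 1 ≤ n) {k : ℕ} {ζ : ℂ} (h : W P Q s n v (k + 1) ζ ≠ 0)
    (hd : DifferentiableAt ℂ (W P Q s n v k) ζ) :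
    HasDerivAt (W P Q s n v (k + 1)) (W P Q s n v (k + 1) ζ *
      (1 + n * ((wro P Q).eval (W P Q s n v k ζ) /
        (P.eval (W P Q s n v k ζ) * Q.eval (W P Q s n v k ζ))) *
        deriv (W P Q s n v k) ζ)) ζ := by
  obtain ⟨hs, hP, hQ⟩ := ne_of_succ hn h
  obtain ⟨j, rfl⟩ : ∃ j, n = j + 1 := ⟨n - 1, by omega⟩
  have hW := hd.hasDerivAt
  set w := W P Q s (j + 1) v k ζ with hw
  have h1 : HasDerivAt (fun ζ => P.eval (W P Q s (j + 1) v k ζ))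
      (P.derivative.eval w * deriv (W P Q s (j + 1) v k) ζ) ζ :=
    (P.hasDerivAt w).comp ζ hW
  have h2 : HasDerivAt (fun ζ => Q.eval (W P Q s (j + 1) v k ζ))
      (Q.derivative.eval w * deriv (W P Q s (j + 1) v k) ζ) ζ :=
    (Q.hasDerivAt w).comp ζ hW
  have h3 := ((h1.const_mul s).fun_div h2 hQ).fun_pow (j + 1)
  have h4 := (Complex.hasDerivAt_exp ζ).fun_mul h3
  have e : (W P Q s (j + 1) v (k + 1)) = fun ζ => Complex.exp ζ *
    (s * P.eval (W P Q s (j + 1) v k ζ) / Q.eval (W P Q s (j + 1) v k ζ)) ^ (j + 1) := by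
    funext ζ
    rw [W_succ]
  rw [e]
  refine h4.congr_deriv ?_
  rw [← hw]
  simp only [wro, Polynomial.eval_sub, Polynomial.eval_mul]
  exact alg j hP hQ

theorem differentiableAt_W (hn : 1 ≤ n) {ζ : ℂ} (h : ∀ k, W P Q s n v k ζ ≠ 0) (k : ℕ) :
    DifferentiableAt ℂ (W P Q s n v k) ζ := by
  induction k with
  | zero =>
    have e : W P Q s n v 0 = fun ζ => v * Complex.exp ζ := rfl
    rw [e]
    fun_prop
  | succ k ih => exact (hasDerivAt_succ hn (h (k + 1)) ih).differentiableAt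

/-- The Cauchy bound. -/
theorem deriv_bound (hρ : 0 < ρ) (ht : 0 < t) {F : ℂ → ℂ}
    (hd : DifferentiableOn ℂ F (ball 0 (2 * t))) (hb : ∀ ζ, ‖ζ‖ < 2 * t → ‖F ζ‖ < ρ⁻¹)
    {ζ : ℂ} (hζ : ζ ∈ closedBall (0 : ℂ) t) : (t - ‖ζ‖) * ‖deriv F ζ‖ ≤ 2 / ρ := by
  rw [mem_closedBall_zero_iff] at hζ
  have hsub : closedBall ζ (t / 2) ⊆ ball (0 : ℂ) (2 * t) := by
    intro z hz
    rw [mem_closedBall, dist_eq_norm] at hz
    rw [mem_ball_zero_iff]
    have h1 : ‖z‖ ≤ ‖z - ζ‖ + ‖ζ‖ := by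
      have := norm_add_le (z - ζ) ζ
      rwa [sub_add_cancel] at this
    linarith
  have h1 : ‖deriv F ζ‖ ≤ ρ⁻¹ / (t / 2) := by
    apply Complex.norm_deriv_le_of_forall_mem_sphere_norm_le (by positivity)
    · exact (hd.mono hsub).diffContOnCl_ball (subset_refl _)
    · intro z hz
      have h2 := hsub (sphere_subset_closedBall hz)
      rw [mem_ball_zero_iff] at h2
      exact (hb z h2).le
  have h2 := norm_nonneg ζ
  calc (t - ‖ζ‖) * ‖deriv F ζ‖ ≤ t * (ρ⁻¹ / (t / 2)) := by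
        apply mul_le_mul (by linarith) h1 (norm_nonneg _) ht.le
    _ = 2 / ρ := by field_simp

/-- One step of the growth. -/
theorem grow_step (hn : 1 ≤ n) (hm : 1 ≤ m) (hρ : 0 < ρ) (hρ1 : ρ ≤ 1) (ht : 0 < t) (hc : 0 < c)
    (A : Finset ℂ)
    (hlow : ∀ k ζ, ‖ζ‖ < 2 * t → ∀ e : ℝ, 0 ≤ e → e ≤ 1 →
      (∀ y ∈ A, e ≤ ‖W P Q s n v k ζ - y‖) →
      c * e ^ (m - 1) ≤ ‖(wro P Q).eval (W P Q s n v k ζ) /
        (P.eval (W P Q s n v k ζ) * Q.eval (W P Q s n v k ζ))‖)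
    (hall : ∀ k ζ, ‖ζ‖ < 2 * t → ρ < ‖W P Q s n v k ζ‖ ∧ ‖W P Q s n v k ζ‖ < ρ⁻¹)
    {k : ℕ} {x : ℝ} (hx : 0 < x)
    (hex : ∃ ζ ∈ closedBall (0 : ℂ) t, x ≤ (t - ‖ζ‖) * ‖deriv (W P Q s n v k) ζ‖) :
    x ≤ 2 / ρ ∧ ∃ ζ ∈ closedBall (0 : ℂ) t,
      ρ * c * (ρ / (64 * (A.card + 1))) ^ (m - 1) / 4 * n * x ^ m - t ≤
        (t - ‖ζ‖) * ‖deriv (W P Q s n v (k + 1)) ζ‖ := by
  have hne : ∀ ζ : ℂ, ‖ζ‖ < 2 * t → ∀ k, W P Q s n v k ζ ≠ 0 := by
    intro ζ hζ k h0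
    have h1 := (hall k ζ hζ).1
    rw [h0, norm_zero] at h1
    linarith
  have hdiff : ∀ k, DifferentiableOn ℂ (W P Q s n v k) (ball 0 (2 * t)) := by
    intro k ζ hζ
    rw [mem_ball_zero_iff] at hζ
    exact (differentiableAt_W hn (hne ζ hζ) k).differentiableWithinAt
  obtain ⟨M, hxM, ⟨ζ₀, hζ₀, hM⟩, τ, hτ0, hτt, ζ, hζ, hder, hA⟩ := bloch ht (hdiff k) hx hex A
  have hMρ : M ≤ 2 / ρ := by
    rw [hM]
    exact deriv_bound hρ ht (hdiff k) (fun z hz => (hall k z hz).2) hζ₀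
  refine ⟨hxM.trans hMρ, ζ, ?_, ?_⟩
  · rw [mem_closedBall_zero_iff]; linarith
  have hζ2 : ‖ζ‖ < 2 * t := by linarith
  have hM0 : 0 < M := hx.trans_le hxM
  obtain ⟨N, hN⟩ : ∃ N : ℝ, N = A.card + 1 := ⟨_, rfl⟩
  have hN1 : 1 ≤ N := by
    rw [hN]
    have : (0 : ℝ) ≤ A.card := Nat.cast_nonneg _
    linarith
  have hN0 : 0 < N := by linarith
  rw [← hN] at hA ⊢
  obtain ⟨κ, hκ⟩ : ∃ κ : ℝ, κ = ρ / (64 * N) := ⟨_, rfl⟩
  have hκ0 : 0 < κ := by rw [hκ]; positivity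
  rw [← hκ]
  have he1 : κ * M ≤ 1 := by
    calc κ * M ≤ κ * (2 / ρ) := by gcongr
      _ = 1 / (32 * N) := by rw [hκ]; field_simp; norm_num
      _ ≤ 1 := by
        rw [div_le_one (by positivity)]
        linarith
  have he2 : κ * M ≤ M / (64 * N) := by
    rw [hκ, div_mul_eq_mul_div]
    apply div_le_div_of_nonneg_right _ (by positivity)
    nlinarith
  have hq := hlow k ζ hζ2 (κ * M) (by positivity) he1 (fun y hy => he2.trans (hA y hy))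
  set q : ℂ := (wro P Q).eval (W P Q s n v k ζ) /
        (P.eval (W P Q s n v k ζ) * Q.eval (W P Q s n v k ζ)) with hqdef
  have hd := hasDerivAt_succ hn (hne ζ hζ2 (k + 1)) (differentiableAt_W hn (hne ζ hζ2) k)
  rw [← hqdef] at hd
  rw [hd.deriv, norm_mul]
  have hn0 : (0 : ℝ) < n := by exact_mod_cast (by omega : 0 < n)
  set X : ℝ := n * (c * (κ * M) ^ (m - 1)) * (M / (2 * τ)) with hX
  have hX0 : 0 ≤ X := by positivity
  have h1 : X - 1 ≤ ‖1 + n * q * deriv (W P Q s n v k) ζ‖ := by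
    have h2 : X ≤ ‖(n : ℂ) * q * deriv (W P Q s n v k) ζ‖ := by
      rw [norm_mul, norm_mul, Complex.norm_natCast, hX]
      gcongr
    have h3 := norm_sub_norm_le ((n : ℂ) * q * deriv (W P Q s n v k) ζ) (-1)
    rw [sub_neg_eq_add, norm_neg, norm_one, add_comm ((n : ℂ) * q * deriv (W P Q s n v k) ζ)] at h3
    linarith
  have hW1 := (hall (k + 1) ζ hζ2).1
  have hτ2 : τ / 2 ≤ t - ‖ζ‖ := by linarith
  have hpow : (κ * M) ^ (m - 1) * M = κ ^ (m - 1) * M ^ m := by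
    obtain ⟨j, rfl⟩ : ∃ j, m = j + 1 := ⟨m - 1, by omega⟩
    rw [Nat.add_sub_cancel, mul_pow, pow_succ M j]
    ring
  have hXe : τ / 2 * ρ * X = ρ * c * κ ^ (m - 1) / 4 * n * M ^ m := by
    rw [hX]
    have : τ / 2 * ρ * (n * (c * (κ * M) ^ (m - 1)) * (M / (2 * τ))) =
        ρ * c * n / 4 * ((κ * M) ^ (m - 1) * M) := by
      field_simp
      norm_num
    rw [this, hpow]
    ring
  have hmono : ρ * c * κ ^ (m - 1) / 4 * n * x ^ m ≤ ρ * c * κ ^ (m - 1) / 4 * n * M ^ m := by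
    gcongr
  refine (sub_le_sub_right hmono t).trans ?_
  rw [← hXe]
  rcases le_or_gt X 1 with hX1 | hX1
  · have h2 : τ / 2 * ρ * X ≤ t := by
      have : τ / 2 * ρ * X ≤ τ / 2 * 1 * 1 := by gcongr
      linarith
    have h3 : 0 ≤ (t - ‖ζ‖) * (‖W P Q s n v (k + 1) ζ‖ *
        ‖1 + (n : ℂ) * q * deriv (W P Q s n v k) ζ‖) := by
      apply mul_nonneg (by linarith) (by positivity)
    linarith
  · have h4 : τ / 2 * (ρ * (X - 1)) ≤ (t - ‖ζ‖) * (‖W P Q s n v (k + 1) ζ‖ *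
        ‖1 + (n : ℂ) * q * deriv (W P Q s n v k) ζ‖) := by
      apply mul_le_mul hτ2 _ (mul_nonneg hρ.le (by linarith)) (by linarith)
      exact mul_le_mul hW1.le h1 (by linarith) (norm_nonneg _)
    have h5 : τ / 2 * ρ ≤ t := by
      have : τ / 2 * ρ ≤ τ / 2 * 1 := by gcongr
      linarith
    calc τ / 2 * ρ * X - t ≤ τ / 2 * (ρ * (X - 1)) := by linarith
      _ ≤ _ := h4

/-- The growth argument: the marked orbit cannot stay in the annulus on a large disc. -/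
theorem grow (hn : 1 ≤ n) (hm : 2 ≤ m) (hρ : 0 < ρ) (hρ1 : ρ ≤ 1) (ht : 0 < t) (hc : 0 < c)
    (A : Finset ℂ)
    (hlow : ∀ k ζ, ‖ζ‖ < 2 * t → ∀ e : ℝ, 0 ≤ e → e ≤ 1 →
      (∀ y ∈ A, e ≤ ‖W P Q s n v k ζ - y‖) →
      c * e ^ (m - 1) ≤ ‖(wro P Q).eval (W P Q s n v k ζ) /
        (P.eval (W P Q s n v k ζ) * Q.eval (W P Q s n v k ζ))‖)
    (hbig : 3 ≤ ρ ^ m * (ρ * c * (ρ / (64 * (A.card + 1))) ^ (m - 1) / 4) * (n * t ^ (m - 1))) :
    ∃ k ζ, ‖ζ‖ < 2 * t ∧ (‖W P Q s n v k ζ‖ ≤ ρ ∨ ρ⁻¹ ≤ ‖W P Q s n v k ζ‖) := by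
  by_contra hcon
  push Not at hcon
  have hall : ∀ k ζ, ‖ζ‖ < 2 * t → ρ < ‖W P Q s n v k ζ‖ ∧ ‖W P Q s n v k ζ‖ < ρ⁻¹ :=
    fun k ζ hζ => hcon k ζ hζ
  set a : ℝ := ρ * c * (ρ / (64 * (A.card + 1))) ^ (m - 1) / 4 with ha
  have ha0 : 0 < a := by
    rw [ha]
    have : (0 : ℝ) < A.card + 1 := by positivity
    positivity
  have hn0 : (0 : ℝ) < n := by exact_mod_cast (by omega : 0 < n)
  have key : ∀ k : ℕ, ∃ ζ ∈ closedBall (0 : ℂ) t,
      2 ^ k * (ρ * t) ≤ (t - ‖ζ‖) * ‖deriv (W P Q s n v k) ζ‖ := by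
    intro k
    induction k with
    | zero =>
      refine ⟨0, by simp [ht.le], ?_⟩
      have e : W P Q s n v 0 = fun ζ => v * Complex.exp ζ := rfl
      have h1 : HasDerivAt (W P Q s n v 0) (v * Complex.exp 0) 0 := by
        rw [e]
        exact (Complex.hasDerivAt_exp 0).const_mul v
      rw [h1.deriv, norm_zero, sub_zero, pow_zero, one_mul]
      have h2 := (hall 0 0 (by rw [norm_zero]; positivity)).1
      rw [W_zero] at h2
      rw [mul_comm]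
      exact mul_le_mul_of_nonneg_left h2.le ht.le
    | succ k ih =>
      have hx : 0 < 2 ^ k * (ρ * t) := by positivity
      obtain ⟨-, ζ, hζ, h⟩ := grow_step hn (by omega) hρ hρ1 ht hc A hlow hall hx ih
      refine ⟨ζ, hζ, le_trans ?_ h⟩
      rw [← ha]
      set x : ℝ := 2 ^ k * (ρ * t) with hxdef
      have hxt : ρ * t ≤ x := by
        rw [hxdef]
        have h1 : (1 : ℝ) ≤ 2 ^ k := one_le_pow₀ (by norm_num)
        have h2 : 0 < ρ * t := by positivity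
        nlinarith
      obtain ⟨j, rfl⟩ : ∃ j, m = j + 1 := ⟨m - 1, by omega⟩
      rw [Nat.add_sub_cancel] at hbig
      have h1 : a * n * x ^ (j + 1) = a * n * x ^ j * x := by ring
      have h2 : a * n * (ρ * t) ^ j * x ≤ a * n * x ^ j * x := by gcongr
      have h3 : 3 ≤ ρ * (a * n * (ρ * t) ^ j) := by
        refine hbig.trans (le_of_eq ?_)
        rw [mul_pow, pow_succ]
        ring
      have h4 : 3 * x ≤ ρ * (a * n * (ρ * t) ^ j) * x := by gcongr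
      have h5 : (2 : ℝ) ^ (k + 1) * (ρ * t) = 2 * x := by rw [hxdef, pow_succ]; ring
      rw [h5, h1]
      -- `2 x + t ≤ a n (ρ t)^j x`
      have h6 : ρ * (2 * x + t) ≤ ρ * (a * n * (ρ * t) ^ j * x) := by
        have : ρ * (2 * x + t) ≤ 3 * x := by nlinarith
        calc ρ * (2 * x + t) ≤ 3 * x := this
          _ ≤ ρ * (a * n * (ρ * t) ^ j) * x := h4
          _ = _ := by ring
      have h7 : 2 * x + t ≤ a * n * (ρ * t) ^ j * x := le_of_mul_le_mul_left h6 hρ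
      linarith
  -- the bound
  have hbd : ∀ k : ℕ, 2 ^ k * (ρ * t) ≤ 2 / ρ := fun k =>
    (grow_step hn (by omega) hρ hρ1 ht hc A hlow hall (by positivity) (key k)).1
  obtain ⟨k, hk⟩ := pow_unbounded_of_one_lt (2 / ρ / (ρ * t)) (by norm_num : (1 : ℝ) < 2)
  rw [div_lt_iff₀ (by positivity)] at hk
  exact absurd (hbd k) (not_le.2 hk)

end Pool.Agent.Helper134.FD
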