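import Mathlib
import Pool.Agent.Helper134_FD.Grow
import Pool.Agent.H462R2.AP2

/-!
# Relative variation of rational functions away from their zeros and poles
-/

set_option autoImplicit false

open Set Filter Topology Metric

namespace Pool.Agent.Helper134.FD

open Pool.Agent.H762R2.Rt

variable {P Q : Polynomial ℂ}

theorem prod_var (S : Multiset ℂ) {θ d : ℝ} (hθ : 0 ≤ θ) {w w₀ : ℂ}
    (hS : ∀ y ∈ S, d ≤ ‖w₀ - y‖) (hw : ‖w - w₀‖ ≤ θ * d) :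
    ‖(S.map fun y => w - y).prod - (S.map fun y => w₀ - y).prod‖ ≤
      ((1 + θ) ^ (Multiset.card S) - 1) * ‖(S.map fun y => w₀ - y).prod‖ := by
  induction S using Multiset.induction_on with
  | empty => simp
  | cons y S ih =>
    have ih' := ih (fun z hz => hS z (Multiset.mem_cons_of_mem hz))
    have hy := hS y (Multiset.mem_cons_self y S)
    simp only [Multiset.map_cons, Multiset.prod_cons, Multiset.card_cons]
    set A := (S.map fun y => w - y).prod with hA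
    set A₀ := (S.map fun y => w₀ - y).prod with hA₀
    set k := Multiset.card S with hk
    have h1 : (w - y) * A - (w₀ - y) * A₀ = (w - y) * (A - A₀) + (w - w₀) * A₀ := by ring
    have h2 : ‖w - w₀‖ ≤ θ * ‖w₀ - y‖ := hw.trans (mul_le_mul_of_nonneg_left hy hθ)
    have h3 : ‖w - y‖ ≤ (1 + θ) * ‖w₀ - y‖ := by
      have := norm_add_le (w - w₀) (w₀ - y)
      rw [sub_add_sub_cancel] at this
      linarith
    have h4 : 0 ≤ (1 + θ) ^ k - 1 := by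
      have : (1 : ℝ) ≤ (1 + θ) ^ k := one_le_pow₀ (by linarith)
      linarith
    rw [h1, norm_mul]
    calc ‖(w - y) * (A - A₀) + (w - w₀) * A₀‖ ≤ ‖w - y‖ * ‖A - A₀‖ + ‖w - w₀‖ * ‖A₀‖ := by
          refine (norm_add_le _ _).trans ?_
          rw [norm_mul, norm_mul]
      _ ≤ (1 + θ) * ‖w₀ - y‖ * (((1 + θ) ^ k - 1) * ‖A₀‖) + θ * ‖w₀ - y‖ * ‖A₀‖ := by
          gcongr
      _ = ((1 + θ) ^ (k + 1) - 1) * (‖w₀ - y‖ * ‖A₀‖) := by ring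

theorem poly_var (U : Polynomial ℂ) {ε : ℝ} (hε : 0 < ε) : ∃ θ : ℝ, 0 < θ ∧
    ∀ θ' : ℝ, 0 ≤ θ' → θ' ≤ θ → ∀ w w₀ : ℂ, ∀ d : ℝ, (∀ y ∈ U.roots, d ≤ ‖w₀ - y‖) →
      ‖w - w₀‖ ≤ θ' * d → ‖U.eval w - U.eval w₀‖ ≤ ε * ‖U.eval w₀‖ := by
  have h1 : ∀ᶠ θ : ℝ in 𝓝 0, (1 + θ) ^ (Multiset.card U.roots) - 1 < ε := by
    have hc : Continuous fun θ : ℝ => (1 + θ) ^ (Multiset.card U.roots) - 1 := by fun_prop
    exact hc.continuousAt.eventually_lt_const (by simpa using hε)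
  obtain ⟨δ, hδ, hball⟩ := Metric.eventually_nhds_iff.1 h1
  refine ⟨δ / 2, by positivity, fun θ' h0 hle w w₀ d hd hw => ?_⟩
  have h2 := hball (y := θ') (by
    rw [dist_zero_right, Real.norm_eq_abs, abs_of_nonneg h0]; linarith)
  have hsp := IsAlgClosed.splits U
  rw [hsp.eval_eq_prod_roots, hsp.eval_eq_prod_roots, ← mul_sub, norm_mul, norm_mul]
  have h3 := prod_var U.roots h0 hd hw
  have h4 : ‖(U.roots.map fun y => w - y).prod - (U.roots.map fun y => w₀ - y).prod‖ ≤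
      ε * ‖(U.roots.map fun y => w₀ - y).prod‖ :=
    h3.trans (mul_le_mul_of_nonneg_right h2.le (norm_nonneg _))
  calc ‖U.leadingCoeff‖ * ‖(U.roots.map fun y => w - y).prod - (U.roots.map fun y => w₀ - y).prod‖
      ≤ ‖U.leadingCoeff‖ * (ε * ‖(U.roots.map fun y => w₀ - y).prod‖) := by gcongr
    _ = _ := by ring

/-- The logarithmic derivative of `P / Q`. -/
noncomputable def lq (P Q : Polynomial ℂ) (w : ℂ) : ℂ :=
  (wro P Q).eval w / (P.eval w * Q.eval w)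

theorem ratio_var {a a₀ b b₀ : ℂ} (hb₀ : b₀ ≠ 0) (ha : ‖a - a₀‖ ≤ 1 / 1000 * ‖a₀‖)
    (hb : ‖b - b₀‖ ≤ 1 / 1000 * ‖b₀‖) : ‖a / b - a₀ / b₀‖ ≤ 1 / 200 * ‖a₀ / b₀‖ := by
  have hb₀' : 0 < ‖b₀‖ := norm_pos_iff.2 hb₀
  have h1 : 999 / 1000 * ‖b₀‖ ≤ ‖b‖ := by
    have := norm_sub_norm_le b₀ b
    rw [norm_sub_rev] at this
    linarith
  have hb' : 0 < ‖b‖ := by
    have : 0 < 999 / 1000 * ‖b₀‖ := by positivity
    linarith
  have hbne : b ≠ 0 := norm_pos_iff.1 hb'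
  have h2 : a / b - a₀ / b₀ = ((a - a₀) * b₀ - a₀ * (b - b₀)) / (b * b₀) := by
    field_simp
    ring
  rw [h2, norm_div, norm_div, norm_mul, div_le_iff₀ (by positivity)]
  have h3 : ‖(a - a₀) * b₀ - a₀ * (b - b₀)‖ ≤ 1 / 500 * (‖a₀‖ * ‖b₀‖) := by
    refine (norm_sub_le _ _).trans ?_
    rw [norm_mul, norm_mul]
    have e1 : ‖a - a₀‖ * ‖b₀‖ ≤ 1 / 1000 * ‖a₀‖ * ‖b₀‖ := by gcongr
    have e2 : ‖a₀‖ * ‖b - b₀‖ ≤ ‖a₀‖ * (1 / 1000 * ‖b₀‖) := by gcongr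
    linarith
  have h4 : 1 / 200 * (‖a₀‖ / ‖b₀‖) * (‖b‖ * ‖b₀‖) = 1 / 200 * (‖a₀‖ * ‖b‖) := by
    field_simp
  rw [h4]
  have h5 : ‖a₀‖ * (999 / 1000 * ‖b₀‖) ≤ ‖a₀‖ * ‖b‖ := by gcongr
  have h6 : 0 ≤ ‖a₀‖ * ‖b₀‖ := by positivity
  linarith

theorem lq_var (hP : P ≠ 0) (hQ : Q ≠ 0) (hw : wro P Q ≠ 0) : ∃ θ : ℝ, 0 < θ ∧ θ ≤ 1 / 400 ∧
    ∀ w w₀ : ℂ, ∀ d : ℝ, 0 < d →
      (∀ y ∈ (wro P Q * (P * Q)).roots.toFinset, d ≤ ‖w₀ - y‖) → ‖w - w₀‖ ≤ θ * d →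
      P.eval w ≠ 0 ∧ Q.eval w ≠ 0 ∧ ‖lq P Q w - lq P Q w₀‖ ≤ 1 / 200 * ‖lq P Q w₀‖ := by
  obtain ⟨θ₁, hθ₁, h₁⟩ := poly_var (wro P Q) (by norm_num : (0 : ℝ) < 1 / 1000)
  obtain ⟨θ₂, hθ₂, h₂⟩ := poly_var (P * Q) (by norm_num : (0 : ℝ) < 1 / 1000)
  have hPQ : P * Q ≠ 0 := mul_ne_zero hP hQ
  have hall : wro P Q * (P * Q) ≠ 0 := mul_ne_zero hw hPQ
  refine ⟨min (min θ₁ θ₂) (1 / 400), by positivity, min_le_right _ _, fun w w₀ d hd hfar hww => ?_⟩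
  have hθ0 : 0 ≤ min (min θ₁ θ₂) (1 / 400 : ℝ) := by positivity
  have hθ4 : min (min θ₁ θ₂) (1 / 400 : ℝ) ≤ 1 / 400 := min_le_right _ _
  have hroot : ∀ y : ℂ, (wro P Q * (P * Q)).eval y = 0 → d ≤ ‖w₀ - y‖ := by
    intro y hy
    apply hfar
    rw [Multiset.mem_toFinset, Polynomial.mem_roots hall]
    exact hy
  have hsmall : ‖w - w₀‖ < d := by
    have : min (min θ₁ θ₂) (1 / 400 : ℝ) * d ≤ 1 / 400 * d := by gcongr
    linarith
  have hPw : P.eval w ≠ 0 := by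
    intro h
    have := hroot w (by simp [h])
    rw [norm_sub_rev] at this
    linarith
  have hQw : Q.eval w ≠ 0 := by
    intro h
    have := hroot w (by simp [h])
    rw [norm_sub_rev] at this
    linarith
  have hw₀ : ∀ y : ℂ, (wro P Q * (P * Q)).eval y = 0 → y ≠ w₀ := by
    rintro y hy rfl
    have := hroot y hy
    rw [sub_self, norm_zero] at this
    linarith
  have hPw₀ : P.eval w₀ ≠ 0 := fun h => hw₀ w₀ (by simp [h]) rfl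
  have hQw₀ : Q.eval w₀ ≠ 0 := fun h => hw₀ w₀ (by simp [h]) rfl
  refine ⟨hPw, hQw, ?_⟩
  have e1 := h₁ _ hθ0 ((min_le_left _ _).trans (min_le_left _ _)) w w₀ d (by
    intro y hy
    rw [Polynomial.mem_roots hw] at hy
    apply hroot
    rw [Polynomial.eval_mul, hy, zero_mul]) hww
  have e2 := h₂ _ hθ0 ((min_le_left _ _).trans (min_le_right _ _)) w w₀ d (by
    intro y hy
    rw [Polynomial.mem_roots hPQ] at hy
    apply hroot
    rw [Polynomial.eval_mul (p := wro P Q), hy, mul_zero]) hww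
  rw [Polynomial.eval_mul, Polynomial.eval_mul] at e2
  exact ratio_var (mul_ne_zero hPw₀ hQw₀) e1 e2

end Pool.Agent.Helper134.FD
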