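import Mathlib
import Pool.Agent.Helper134_FD.Var

/-!
# Nearly affine pieces of the marked orbit
-/

set_option autoImplicit false

open Set Filter Topology Metric

namespace Pool.Agent.Helper134.FD

open Pool.Agent.H762R2.Rt

variable {P Q : Polynomial ℂ} {s v : ℂ} {n m k : ℕ} {ρ T r : ℝ} {z : ℂ}

/-- The `k`-th function is nearly affine on the disc and moves by at least `r`. -/
structure Stage (P Q : Polynomial ℂ) (s : ℂ) (n : ℕ) (v : ℂ) (ρ : ℝ) (k : ℕ) (z : ℂ)
    (T r : ℝ) : Prop where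
  hT : 0 < T
  hsub : closedBall z T ⊆ closedBall 0 (1 / 2)
  hdiff : ∀ ζ ∈ closedBall z T, DifferentiableAt ℂ (W P Q s n v k) ζ
  hnear : ∀ ζ ∈ closedBall z T, ‖deriv (W P Q s n v k) ζ - deriv (W P Q s n v k) z‖ ≤
    ‖deriv (W P Q s n v k) z‖ / 2
  hann : ∀ ζ ∈ closedBall z T, ‖W P Q s n v k ζ‖ ≤ 8 * ρ⁻¹
  hr : 0 < r
  hrle : r ≤ T * ‖deriv (W P Q s n v k) z‖

/-- The orbit is captured at time `k` on the whole disc. -/
def Capt (P Q : Polynomial ℂ) (s : ℂ) (n : ℕ) (v : ℂ) (ρ : ℝ) (k : ℕ) (z : ℂ) (T : ℝ) : Prop :=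
  ∀ ζ ∈ closedBall z T, ‖W P Q s n v k ζ‖ ≤ ρ ∨ ρ⁻¹ ≤ ‖W P Q s n v k ζ‖

theorem Stage.T_le (h : Stage P Q s n v ρ k z T r) : T ≤ 1 / 2 := by
  have h1 : z + T ∈ closedBall z T := by
    rw [mem_closedBall, dist_eq_norm, add_sub_cancel_left, Complex.norm_real, Real.norm_eq_abs,
      abs_of_pos h.hT]
  have h2 : z - T ∈ closedBall z T := by
    rw [mem_closedBall, dist_eq_norm, sub_sub_cancel_left, norm_neg, Complex.norm_real,
      Real.norm_eq_abs, abs_of_pos h.hT]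
  have h3 := h.hsub h1
  have h4 := h.hsub h2
  rw [mem_closedBall_zero_iff] at h3 h4
  have h5 := norm_sub_le (z + (T : ℂ)) (z - T)
  have h6 : z + (T : ℂ) - (z - T) = ((2 * T : ℝ) : ℂ) := by push_cast; ring
  rw [h6, Complex.norm_real, Real.norm_eq_abs, abs_of_pos (by have := h.hT; positivity)] at h5
  linarith

theorem Stage.bilip (h : Stage P Q s n v ρ k z T r) {ζ ζ' : ℂ} (hζ : ζ ∈ closedBall z T)
    (hζ' : ζ' ∈ closedBall z T) :
    ‖deriv (W P Q s n v k) z‖ / 2 * ‖ζ - ζ'‖ ≤ ‖W P Q s n v k ζ - W P Q s n v k ζ'‖ ∧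
    ‖W P Q s n v k ζ - W P Q s n v k ζ'‖ ≤ 3 / 2 * ‖deriv (W P Q s n v k) z‖ * ‖ζ - ζ'‖ := by
  set F := W P Q s n v k with hF
  have hd : ∀ x ∈ closedBall z T, HasDerivWithinAt (fun x => F x - deriv F z * x)
      (deriv F x - deriv F z) (closedBall z T) x := by
    intro x hx
    have h1 : HasDerivAt F (deriv F x) x := (h.hdiff x hx).hasDerivAt
    have h2 := h1.fun_sub ((hasDerivAt_id x).const_mul (deriv F z))
    simp only [id, mul_one] at h2
    exact h2.hasDerivWithinAt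
  have h1 := (convex_closedBall z T).norm_image_sub_le_of_norm_hasDerivWithin_le hd
    (fun x hx => h.hnear x hx) hζ' hζ
  have h2 : F ζ - deriv F z * ζ - (F ζ' - deriv F z * ζ') =
      (F ζ - F ζ') - deriv F z * (ζ - ζ') := by ring
  rw [h2] at h1
  have h3 := norm_sub_norm_le (deriv F z * (ζ - ζ')) (F ζ - F ζ')
  rw [norm_sub_rev (deriv F z * (ζ - ζ')), norm_mul] at h3
  have h4 := norm_sub_norm_le (F ζ - F ζ') (deriv F z * (ζ - ζ'))
  rw [norm_mul] at h4
  constructor <;> linarith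

theorem Stage.R_le (h : Stage P Q s n v ρ k z T r) :
    T * ‖deriv (W P Q s n v k) z‖ ≤ 32 * ρ⁻¹ := by
  have h1 : z + T ∈ closedBall z T := by
    rw [mem_closedBall, dist_eq_norm, add_sub_cancel_left, Complex.norm_real, Real.norm_eq_abs,
      abs_of_pos h.hT]
  have h2 : z ∈ closedBall z T := mem_closedBall_self h.hT.le
  have h3 := (h.bilip h1 h2).1
  rw [add_sub_cancel_left, Complex.norm_real, Real.norm_eq_abs, abs_of_pos h.hT] at h3
  have h4 := norm_sub_le (W P Q s n v k (z + T)) (W P Q s n v k z)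
  have h5 := h.hann _ h1
  have h6 := h.hann _ h2
  linarith

theorem Stage.point (h : Stage P Q s n v ρ k z T r) (A : Finset ℂ) :
    ∃ ζ ∈ closedBall z (T / 2), ∀ y ∈ A,
      T * ‖deriv (W P Q s n v k) z‖ / (8 * (A.card + 1)) ≤ ‖W P Q s n v k ζ - y‖ := by
  have hT := h.hT
  have hball : closedBall z (T / 2) ⊆ closedBall z T := closedBall_subset_closedBall (by linarith)
  obtain ⟨N, hN⟩ : ∃ N : ℝ, N = A.card + 1 := ⟨_, rfl⟩
  have hN0 : 0 < N := by rw [hN]; exact_mod_cast Nat.succ_pos _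
  rw [← hN]
  obtain ⟨D, hD⟩ : ∃ D : ℝ, D = ‖deriv (W P Q s n v k) z‖ := ⟨_, rfl⟩
  rw [← hD]
  have hD0 : 0 ≤ D := by rw [hD]; exact norm_nonneg _
  set pt : ℕ → ℂ := fun i => z + ((i / N * (T / 2) : ℝ) : ℂ) with hpt
  have hptin : ∀ i : ℕ, i ∈ Finset.range (A.card + 1) → pt i ∈ closedBall z (T / 2) := by
    intro i hi
    rw [mem_closedBall, dist_eq_norm, hpt]
    simp only [add_sub_cancel_left]
    rw [Complex.norm_real, Real.norm_eq_abs, abs_of_nonneg (by positivity)]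
    have h1 : (i : ℝ) < N := by
      rw [hN]
      exact_mod_cast Finset.mem_range.1 hi
    have h2 : (i : ℝ) / N ≤ 1 := by rw [div_le_one hN0]; exact h1.le
    calc (i : ℝ) / N * (T / 2) ≤ 1 * (T / 2) := by gcongr
      _ = T / 2 := one_mul _
  have hdist : ∀ i j : ℕ, i ≠ j → T / (2 * N) ≤ ‖pt i - pt j‖ := by
    intro i j hij
    have h1 : pt i - pt j = ((((i : ℝ) - j) * (T / (2 * N)) : ℝ) : ℂ) := by
      have h0 : ((i : ℝ) - j) * (T / (2 * N)) = i / N * (T / 2) - j / N * (T / 2) := by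
        field_simp
      rw [h0, hpt]
      push_cast
      ring
    rw [h1, Complex.norm_real, Real.norm_eq_abs, abs_mul,
      abs_of_nonneg (by positivity : 0 ≤ T / (2 * N))]
    have h2 : (1 : ℝ) ≤ |(i : ℝ) - j| := by
      have h3 : (1 : ℤ) ≤ |(i : ℤ) - j| := by
        apply Int.one_le_abs
        omega
      have h4 : ((1 : ℤ) : ℝ) ≤ ((|(i : ℤ) - j| : ℤ) : ℝ) := by exact_mod_cast h3
      simpa using h4
    calc T / (2 * N) = 1 * (T / (2 * N)) := (one_mul _).symm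
      _ ≤ |(i : ℝ) - j| * (T / (2 * N)) := by gcongr
  by_contra hcon
  push Not at hcon
  choose! y hyA hy using fun i hi => hcon (pt i) (hptin i hi)
  obtain ⟨i, hi, j, hj, hij, heq⟩ := Finset.exists_ne_map_eq_of_card_lt_of_maps_to
    (s := Finset.range (A.card + 1)) (t := A) (by simp) (f := y) hyA
  have h1 := hy i hi
  have h2 := hy j hj
  rw [← heq] at h2
  have h3 := (h.bilip (hball (hptin i hi)) (hball (hptin j hj))).1
  rw [← hD] at h3
  have h4 : ‖W P Q s n v k (pt i) - W P Q s n v k (pt j)‖ ≤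
      ‖W P Q s n v k (pt i) - y i‖ + ‖W P Q s n v k (pt j) - y i‖ := by
    have := norm_sub_le (W P Q s n v k (pt i) - y i) (W P Q s n v k (pt j) - y i)
    rwa [sub_sub_sub_cancel_right] at this
  have h5 : D / 2 * (T / (2 * N)) ≤ D / 2 * ‖pt i - pt j‖ := by
    apply mul_le_mul_of_nonneg_left (hdist i j hij) (by positivity)
  have h6 : D / 2 * (T / (2 * N)) = T * D / (8 * N) + T * D / (8 * N) := by
    rw [← add_div, div_mul_div_comm, div_eq_div_iff (by positivity) (by positivity)]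
    ring
  linarith

/-- The logarithm of a holomorphic function whose logarithmic derivative is nearly constant. -/
theorem exists_log {u G₀ : ℂ → ℂ} {a Λ : ℂ} {σ : ℝ} (hσ : 0 < σ)
    (hu : ∀ ζ ∈ ball a σ, HasDerivAt u (u ζ * (1 + G₀ ζ)) ζ) (hne : ∀ ζ ∈ ball a σ, u ζ ≠ 0)
    (hG : ∀ ζ ∈ ball a σ, ‖G₀ ζ - Λ‖ ≤ ‖Λ‖ / 100) :
    ∃ l : ℂ → ℂ, (∀ ζ ∈ ball a σ, u ζ = u a * Complex.exp (l ζ)) ∧
      ∀ ζ ∈ ball a σ, ‖l ζ - Λ * (ζ - a)‖ ≤ (1 + ‖Λ‖ / 100) * ‖ζ - a‖ := by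
  have ha : a ∈ ball a σ := mem_ball_self hσ
  have hud : DifferentiableOn ℂ u (ball a σ) := fun ζ hζ =>
    (hu ζ hζ).differentiableAt.differentiableWithinAt
  have hGd : DifferentiableOn ℂ (fun ζ => deriv u ζ / u ζ) (ball a σ) :=
    (hud.deriv isOpen_ball).div hud hne
  obtain ⟨L, hL⟩ := hGd.isExactOn_ball
  have hL' : ∀ ζ ∈ ball a σ, HasDerivAt L (1 + G₀ ζ) ζ := by
    intro ζ hζ
    have h1 := hL ζ hζ
    refine h1.congr_deriv ?_
    show deriv u ζ / u ζ = 1 + G₀ ζ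
    rw [(hu ζ hζ).deriv, mul_div_cancel_left₀ _ (hne ζ hζ)]
  -- `u exp (- L)` is constant
  have hconst : ∀ ζ ∈ ball a σ, u ζ * Complex.exp (-L ζ) = u a * Complex.exp (-L a) := by
    intro ζ hζ
    have hd : ∀ x ∈ ball a σ, HasDerivAt (fun x => u x * Complex.exp (-L x)) 0 x := by
      intro x hx
      have h1 := (hu x hx).fun_mul (hL' x hx).fun_neg.cexp
      refine h1.congr_deriv ?_
      ring
    apply isOpen_ball.is_const_of_deriv_eq_zero (convex_ball a σ).isPreconnected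
      (f := fun x => u x * Complex.exp (-L x)) _ _ hζ ha
    · exact fun x hx => (hd x hx).differentiableAt.differentiableWithinAt
    · intro x hx
      exact (hd x hx).deriv
  refine ⟨fun ζ => L ζ - L a, fun ζ hζ => ?_, fun ζ hζ => ?_⟩
  · have h1 := hconst ζ hζ
    have h2 : u ζ = u ζ * Complex.exp (-L ζ) * Complex.exp (L ζ) := by
      rw [mul_assoc, ← Complex.exp_add]; simp
    rw [h2, h1, mul_assoc, ← Complex.exp_add]
    congr 2
    ring
  · have hd : ∀ x ∈ ball a σ, HasDerivWithinAt (fun x => L x - (1 + Λ) * x)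
        (G₀ x - Λ) (ball a σ) x := by
      intro x hx
      have h2 := (hL' x hx).fun_sub ((hasDerivAt_id x).const_mul (1 + Λ))
      simp only [id, mul_one] at h2
      refine HasDerivAt.hasDerivWithinAt (h2.congr_deriv ?_)
      ring
    have h1 := (convex_ball a σ).norm_image_sub_le_of_norm_hasDerivWithin_le hd
      (fun x hx => hG x hx) ha hζ
    have h2 : L ζ - L a - Λ * (ζ - a) = (L ζ - (1 + Λ) * ζ - (L a - (1 + Λ) * a)) + (ζ - a) := by
      ring
    rw [h2]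
    refine (norm_add_le _ _).trans ?_
    linarith

end Pool.Agent.Helper134.FD
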