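import Mathlib
import Pool.Agent.H462R2.AP2
import Pool.Agent.Helper134_FD.Grow

/-!
# The lower bound for the logarithmic derivative, and enlarging the interval
-/

set_option autoImplicit false

open Set Filter Topology Metric

namespace Pool.Agent.Helper134.FD

open Pool.Agent.H762R2.Rt

variable {P Q : Polynomial ℂ}

theorem local_low {U : Polynomial ℂ} (hU : U ≠ 0) {m : ℕ} {w₀ : ℂ}
    (hm : U.eval w₀ = 0 → U.rootMultiplicity w₀ < m) :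
    ∃ c : ℝ, 0 < c ∧ ∀ᶠ w in 𝓝 w₀, ∀ e : ℝ, 0 ≤ e → e ≤ 1 → (∀ y ∈ U.roots.toFinset, e ≤ ‖w - y‖) →
      c * e ^ (m - 1) ≤ ‖U.eval w‖ := by
  by_cases h0 : U.eval w₀ = 0
  · have hk := hm h0
    obtain ⟨S, hS, hnd⟩ := Polynomial.exists_eq_pow_rootMultiplicity_mul_and_not_dvd U hU w₀
    set k := U.rootMultiplicity w₀ with hkdef
    have hS0 : S.eval w₀ ≠ 0 := by
      intro h
      exact hnd (Polynomial.dvd_iff_isRoot.2 h)
    have hSn : 0 < ‖S.eval w₀‖ := norm_pos_iff.2 hS0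
    have h1 : ∀ᶠ w in 𝓝 w₀, ‖S.eval w₀‖ / 2 < ‖S.eval w‖ := by
      have hc : Continuous fun w : ℂ => ‖S.eval w‖ := by fun_prop
      exact hc.continuousAt.eventually_const_lt (by simpa using (half_lt_self hSn))
    refine ⟨‖S.eval w₀‖ / 2, by positivity, h1.mono fun w hw e he0 he1 hA => ?_⟩
    have h2 : e ≤ ‖w - w₀‖ := by
      apply hA
      rw [Multiset.mem_toFinset, Polynomial.mem_roots hU]
      exact h0
    have h3 : ‖U.eval w‖ = ‖w - w₀‖ ^ k * ‖S.eval w‖ := by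
      conv_lhs => rw [hS]
      rw [Polynomial.eval_mul, Polynomial.eval_pow, Polynomial.eval_sub, Polynomial.eval_X,
        Polynomial.eval_C, norm_mul, norm_pow]
    rw [h3]
    calc ‖S.eval w₀‖ / 2 * e ^ (m - 1) ≤ ‖S.eval w‖ * e ^ k := by
          apply mul_le_mul hw.le _ (by positivity) (norm_nonneg _)
          exact pow_le_pow_of_le_one he0 he1 (by omega)
      _ ≤ ‖S.eval w‖ * ‖w - w₀‖ ^ k := by gcongr
      _ = _ := mul_comm _ _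
  · have hUn : 0 < ‖U.eval w₀‖ := norm_pos_iff.2 h0
    have h1 : ∀ᶠ w in 𝓝 w₀, ‖U.eval w₀‖ / 2 < ‖U.eval w‖ := by
      have hc : Continuous fun w : ℂ => ‖U.eval w‖ := by fun_prop
      exact hc.continuousAt.eventually_const_lt (by simpa using (half_lt_self hUn))
    refine ⟨‖U.eval w₀‖ / 2, by positivity, h1.mono fun w hw e he0 he1 hA => ?_⟩
    have h2 : e ^ (m - 1) ≤ 1 := pow_le_one₀ he0 he1
    nlinarith

theorem exists_low (hc : IsCoprime P Q) (hw : wro P Q ≠ 0) {r1 r2 ρ : ℝ} (hr1 : 0 < r1)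
    {m : ℕ}
    (hm : ∀ y : ℂ, (wro P Q).eval y = 0 → r1 * ‖P.eval y‖ ≤ ‖Q.eval y‖ →
      ‖Q.eval y‖ ≤ r2 * ‖P.eval y‖ → (wro P Q).rootMultiplicity y < m) :
    ∃ c : ℝ, 0 < c ∧ ∀ w : ℂ, ‖w‖ ≤ ρ → r1 * ‖P.eval w‖ ≤ ‖Q.eval w‖ →
      ‖Q.eval w‖ ≤ r2 * ‖P.eval w‖ → ∀ e : ℝ, 0 ≤ e → e ≤ 1 →
      (∀ y ∈ (wro P Q).roots.toFinset, e ≤ ‖w - y‖) →
      c * e ^ (m - 1) ≤ ‖(wro P Q).eval w / (P.eval w * Q.eval w)‖ := by
  set K : Set ℂ := {w | ‖w‖ ≤ ρ ∧ r1 * ‖P.eval w‖ ≤ ‖Q.eval w‖ ∧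
    ‖Q.eval w‖ ≤ r2 * ‖P.eval w‖} with hK
  have hKc : IsCompact K := by
    have h1 : K = closedBall (0 : ℂ) ρ ∩ ({w | r1 * ‖P.eval w‖ ≤ ‖Q.eval w‖} ∩
        {w | ‖Q.eval w‖ ≤ r2 * ‖P.eval w‖}) := by
      ext w
      simp [hK]
    rw [h1]
    apply (isCompact_closedBall _ _).inter_right
    apply IsClosed.inter
    · exact isClosed_le (by fun_prop) (by fun_prop)
    · exact isClosed_le (by fun_prop) (by fun_prop)
  have hglob : ∃ c : ℝ, 0 < c ∧ ∀ w ∈ K, ∀ e : ℝ, 0 ≤ e → e ≤ 1 →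
      (∀ y ∈ (wro P Q).roots.toFinset, e ≤ ‖w - y‖) → c * e ^ (m - 1) ≤ ‖(wro P Q).eval w‖ := by
    refine hKc.induction_on (p := fun S => ∃ c : ℝ, 0 < c ∧ ∀ w ∈ S, ∀ e : ℝ, 0 ≤ e → e ≤ 1 →
      (∀ y ∈ (wro P Q).roots.toFinset, e ≤ ‖w - y‖) → c * e ^ (m - 1) ≤ ‖(wro P Q).eval w‖)
      ?_ ?_ ?_ ?_
    · exact ⟨1, one_pos, fun w hw => absurd hw (notMem_empty w)⟩
    · rintro S T hST ⟨c, hc0, h⟩
      exact ⟨c, hc0, fun w hw => h w (hST hw)⟩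
    · rintro S T ⟨c, hc0, h⟩ ⟨c', hc0', h'⟩
      refine ⟨min c c', lt_min hc0 hc0', ?_⟩
      rintro w (hw | hw) e he0 he1 hA
      · refine le_trans ?_ (h w hw e he0 he1 hA)
        exact mul_le_mul_of_nonneg_right (min_le_left _ _) (by positivity)
      · refine le_trans ?_ (h' w hw e he0 he1 hA)
        exact mul_le_mul_of_nonneg_right (min_le_right _ _) (by positivity)
    · intro w₀ hw₀
      obtain ⟨c, hc0, h⟩ := local_low (w₀ := w₀) (m := m) hw (fun h0 => hm w₀ h0 hw₀.2.1 hw₀.2.2)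
      exact ⟨_, mem_nhdsWithin_of_mem_nhds h, c, hc0, fun w hw => hw⟩
  obtain ⟨c, hc0, hlow⟩ := hglob
  obtain ⟨B, hB⟩ := hKc.exists_bound_of_continuousOn (f := fun w => P.eval w * Q.eval w)
    (by fun_prop)
  refine ⟨c / (|B| + 1), by positivity, fun w h1 h2 h3 e he0 he1 hA => ?_⟩
  have hwK : w ∈ K := ⟨h1, h2, h3⟩
  have hP : P.eval w ≠ 0 := by
    intro h
    rw [h, norm_zero, mul_zero] at h3
    have h4 : Q.eval w = 0 := norm_le_zero_iff.1 h3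
    rcases Pool.Agent.H462R2.AP.coprime_eval hc w with h5 | h5
    · exact h5 h
    · exact h5 h4
  have hQ : Q.eval w ≠ 0 := by
    intro h
    rw [h, norm_zero] at h2
    have h4 : 0 < r1 * ‖P.eval w‖ := mul_pos hr1 (norm_pos_iff.2 hP)
    linarith
  have hPQ : 0 < ‖P.eval w * Q.eval w‖ := norm_pos_iff.2 (mul_ne_zero hP hQ)
  have hPQB : ‖P.eval w * Q.eval w‖ ≤ |B| + 1 := by
    have := hB w hwK
    have := le_abs_self B
    linarith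
  rw [norm_div, le_div_iff₀ hPQ]
  calc c / (|B| + 1) * e ^ (m - 1) * ‖P.eval w * Q.eval w‖
      ≤ c / (|B| + 1) * e ^ (m - 1) * (|B| + 1) := by gcongr
    _ = c * e ^ (m - 1) := by field_simp
    _ ≤ ‖(wro P Q).eval w‖ := hlow w hwK e he0 he1 hA

/-- Enlarging the interval of moduli. -/
theorem exists_extend {r1 r2 : ℝ} (hr1 : 0 < r1) (A : Finset ℂ) {a b : ℝ} {a' b' : ℝ}
    (h0 : r2 * a < b ∨ b < r1 * a) (h1 : r2 * a' < b' ∨ b' < r1 * a') :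
    ∃ δ : ℝ, 0 < δ ∧ δ < r1 ∧
      ((r2 + δ) * a < b ∨ b < (r1 - δ) * a) ∧ ((r2 + δ) * a' < b' ∨ b' < (r1 - δ) * a') ∧
      ∀ y ∈ A, (r1 - δ) * ‖P.eval y‖ ≤ ‖Q.eval y‖ → ‖Q.eval y‖ ≤ (r2 + δ) * ‖P.eval y‖ →
        r1 * ‖P.eval y‖ ≤ ‖Q.eval y‖ ∧ ‖Q.eval y‖ ≤ r2 * ‖P.eval y‖ := by
  have key : ∀ a b : ℝ, (r2 * a < b ∨ b < r1 * a) →
      ∀ᶠ δ : ℝ in 𝓝 0, ((r2 + δ) * a < b ∨ b < (r1 - δ) * a) := by
    intro a b h
    rcases h with h | h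
    · have hc : Continuous fun δ : ℝ => (r2 + δ) * a := by fun_prop
      exact (hc.continuousAt.eventually_lt_const (by simpa using h)).mono fun δ h => Or.inl h
    · have hc : Continuous fun δ : ℝ => (r1 - δ) * a := by fun_prop
      exact (hc.continuousAt.eventually_const_lt (by simpa using h)).mono fun δ h => Or.inr h
  have h2 : ∀ᶠ δ : ℝ in 𝓝 0, ∀ y ∈ A, (r1 - δ) * ‖P.eval y‖ ≤ ‖Q.eval y‖ →
      ‖Q.eval y‖ ≤ (r2 + δ) * ‖P.eval y‖ →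
        r1 * ‖P.eval y‖ ≤ ‖Q.eval y‖ ∧ ‖Q.eval y‖ ≤ r2 * ‖P.eval y‖ := by
    rw [Finset.eventually_all]
    intro y _
    by_cases hy : r1 * ‖P.eval y‖ ≤ ‖Q.eval y‖ ∧ ‖Q.eval y‖ ≤ r2 * ‖P.eval y‖
    · exact Eventually.of_forall fun δ _ _ => hy
    · have h3 : r2 * ‖P.eval y‖ < ‖Q.eval y‖ ∨ ‖Q.eval y‖ < r1 * ‖P.eval y‖ := by
        by_contra hcon
        push Not at hcon
        exact hy ⟨hcon.2, hcon.1⟩
      refine (key _ _ h3).mono fun δ h4 h5 h6 => ?_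
      rcases h4 with h4 | h4 <;> linarith
  have h3 : ∀ᶠ δ : ℝ in 𝓝 0, δ < r1 := eventually_lt_nhds hr1
  obtain ⟨ε, hε, hball⟩ := Metric.eventually_nhds_iff.1 (h3.and ((key a b h0).and
    ((key a' b' h1).and h2)))
  refine ⟨ε / 2, by positivity, ?_⟩
  have := hball (y := ε / 2) (by
    rw [dist_zero_right, Real.norm_eq_abs, abs_of_pos (by positivity)]; linarith)
  exact ⟨this.1, this.2.1, this.2.2.1, this.2.2.2⟩

end Pool.Agent.Helper134.FD
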