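import Mathlib
import Pool.Agent.TH433.MC4
import Pool.Agent.TH433.MC7
import Pool.Agent.Helper134_FD.Low

/-!
# Points near `0` and `∞` are attracted
-/

set_option autoImplicit false

open Set Filter Topology Metric
open scoped OnePoint

namespace Pool.Agent.Helper134.FD

open Pool.Agent.H762R2.Rt Pool.Agent.H462R2.AP Pool.Agent.TH433.MC Pool.Agent.Helper114.Herman
  Pool.Agent.Helper114.Konig

theorem near_one (A B : Polynomial ℂ) {a b : ℝ}
    (h : b * ‖A.eval 0‖ < ‖B.eval 0‖ ∨ ‖B.eval 0‖ < a * ‖A.eval 0‖) :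
    ∃ ρ η : ℝ, 0 < ρ ∧ 0 < η ∧ ∀ s : ℂ, a ≤ ‖s‖ → ‖s‖ ≤ b → ∀ x : ℂ, ‖x‖ ≤ ρ →
      Good η (s * A.eval x) (B.eval x) := by
  rcases h with h | h
  · have h1 : ∀ᶠ η : ℝ in 𝓝 0, b * ‖A.eval 0‖ < Real.exp (-η) * ‖B.eval 0‖ := by
      have hc : Continuous fun η : ℝ => Real.exp (-η) * ‖B.eval 0‖ := by fun_prop
      exact hc.continuousAt.eventually_const_lt (by simpa using h)
    obtain ⟨ε, hε, hball⟩ := Metric.eventually_nhds_iff.1 h1
    have h2 := hball (y := ε / 2) (by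
      rw [dist_zero_right, Real.norm_eq_abs, abs_of_pos (by positivity)]; linarith)
    have h3 : ∀ᶠ x : ℂ in 𝓝 0, b * ‖A.eval x‖ < Real.exp (-(ε / 2)) * ‖B.eval x‖ := by
      have hc : Continuous fun x : ℂ => b * ‖A.eval x‖ := by fun_prop
      have hc' : Continuous fun x : ℂ => Real.exp (-(ε / 2)) * ‖B.eval x‖ := by fun_prop
      exact hc.continuousAt.eventually_lt hc'.continuousAt h2
    obtain ⟨ρ, hρ, hball'⟩ := Metric.eventually_nhds_iff.1 h3
    refine ⟨ρ / 2, ε / 2, by positivity, by positivity, fun s _ hs x hx => Or.inl ?_⟩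
    have h4 := hball' (y := x) (by rw [dist_zero_right]; linarith)
    rw [norm_mul]
    exact (mul_le_mul_of_nonneg_right hs (norm_nonneg _)).trans h4.le
  · have h1 : ∀ᶠ η : ℝ in 𝓝 0, ‖B.eval 0‖ < Real.exp (-η) * (a * ‖A.eval 0‖) := by
      have hc : Continuous fun η : ℝ => Real.exp (-η) * (a * ‖A.eval 0‖) := by fun_prop
      exact hc.continuousAt.eventually_const_lt (by simpa using h)
    obtain ⟨ε, hε, hball⟩ := Metric.eventually_nhds_iff.1 h1
    have h2 := hball (y := ε / 2) (by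
      rw [dist_zero_right, Real.norm_eq_abs, abs_of_pos (by positivity)]; linarith)
    have h3 : ∀ᶠ x : ℂ in 𝓝 0, ‖B.eval x‖ < Real.exp (-(ε / 2)) * (a * ‖A.eval x‖) := by
      have hc : Continuous fun x : ℂ => ‖B.eval x‖ := by fun_prop
      have hc' : Continuous fun x : ℂ => Real.exp (-(ε / 2)) * (a * ‖A.eval x‖) := by fun_prop
      exact hc.continuousAt.eventually_lt hc'.continuousAt h2
    obtain ⟨ρ, hρ, hball'⟩ := Metric.eventually_nhds_iff.1 h3
    refine ⟨ρ / 2, ε / 2, by positivity, by positivity, fun s hs _ x hx => Or.inr ?_⟩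
    have h4 := hball' (y := x) (by rw [dist_zero_right]; linarith)
    rw [norm_mul]
    refine h4.le.trans ?_
    apply mul_le_mul_of_nonneg_left _ (Real.exp_pos _).le
    exact mul_le_mul_of_nonneg_right hs (norm_nonneg _)

/-- Points near `0` and `∞` are attracted, uniformly. -/
theorem capture {P Q : Polynomial ℂ} (hc : IsCoprime P Q) {D : ℕ}
    (hD : D = max P.natDegree Q.natDegree) (hD1 : 0 < D) {a b : ℝ} (ha : 0 < a) (hab : a ≤ b)
    (h0 : b * ‖P.coeff 0‖ < ‖Q.coeff 0‖ ∨ ‖Q.coeff 0‖ < a * ‖P.coeff 0‖)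
    (h1 : b * ‖P.coeff D‖ < ‖Q.coeff D‖ ∨ ‖Q.coeff D‖ < a * ‖P.coeff D‖) :
    ∃ ρ : ℝ, 0 < ρ ∧ ρ < 1 ∧ ∃ n₀ : ℕ, ∀ n : ℕ, n₀ ≤ n → ∀ s : ℂ, a ≤ ‖s‖ → ‖s‖ ≤ b →
      ∀ f : OnePoint ℂ → OnePoint ℂ,
        IsRat f (Polynomial.expand ℂ n (Polynomial.C s * P)) (Polynomial.expand ℂ n Q) →
        (∀ i, Sinks f (ch i 0)) ∧
        ∀ w : ℂ, (‖w‖ ≤ ρ ∨ ρ⁻¹ ≤ ‖w‖) → Sinks f (pr (s * P.eval w) (Q.eval w)) := by
  have hb : 0 < b := ha.trans_le hab
  have hPd : P.natDegree ≤ D := hD ▸ le_max_left _ _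
  have hQd : Q.natDegree ≤ D := hD ▸ le_max_right _ _
  obtain ⟨ρ₁, η₁, hρ₁, hη₁, hg₁⟩ := near_one (cp D P false) (cp D Q false) (a := a) (b := b) (by
    rw [cp_false, cp_false, ← Polynomial.coeff_zero_eq_eval_zero,
      ← Polynomial.coeff_zero_eq_eval_zero]
    exact h0)
  obtain ⟨ρ₂, η₂, hρ₂, hη₂, hg₂⟩ := near_one (cp D P true) (cp D Q true) (a := a) (b := b) (by
    rw [eval_cp_true_zero, eval_cp_true_zero]
    exact h1)
  set ρ : ℝ := min (min ρ₁ ρ₂) (1 / 2) with hρdef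
  have hρ0 : 0 < ρ := by positivity
  have hρ1 : ρ < 1 := lt_of_le_of_lt (min_le_right _ _) (by norm_num)
  set η : ℝ := min η₁ η₂ with hηdef
  have hη0 : 0 < η := lt_min hη₁ hη₂
  have hg : ∀ i : Bool, ∀ s : ℂ, a ≤ ‖s‖ → ‖s‖ ≤ b → ∀ x : ℂ, ‖x‖ ≤ ρ →
      Good η (s * (cp D P i).eval x) ((cp D Q i).eval x) := by
    intro i s hs1 hs2 x hx
    cases i
    · exact (hg₁ s hs1 hs2 x (hx.trans ((min_le_left _ _).trans (min_le_left _ _)))).mono
        (min_le_left _ _)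
    · exact (hg₂ s hs1 hs2 x (hx.trans ((min_le_left _ _).trans (min_le_right _ _)))).mono
        (min_le_right _ _)
  -- the constants
  obtain ⟨μ₀, hμ₀, hi₀, hu₀⟩ := exists_mu hc hD hD1
  obtain ⟨L₀, hL00, hL₀⟩ := lip_all D P Q
  set μ : ℝ := min a 1 * μ₀ with hμdef
  have hmin : 0 < min a 1 := lt_min ha one_pos
  have hμ : 0 < μ := by positivity
  set L : ℝ := (b + 1) * L₀ with hLdef
  have hL0 : 0 ≤ L := by positivity
  set r := Real.exp (-(η / 2)) with hr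
  have hr0 : 0 < r := Real.exp_pos _
  have hr1 : r < 1 := by rw [hr, Real.exp_lt_one_iff]; linarith
  set ε : ℝ := r * (1 - r) * μ / 4 with hεdef
  have hε0 : 0 < ε := by
    have : 0 < 1 - r := by linarith
    positivity
  have hε : 4 * ε ≤ Real.exp (-(η / 2)) * (1 - Real.exp (-(η / 2))) * μ := by
    rw [hεdef, ← hr]; linarith
  have ht := tendsto_t hr0 hr1
  have hev : ∀ K c : ℝ, 0 < c → ∀ᶠ n : ℕ in atTop, K * ((n : ℝ) ^ 2 * r ^ (n - 1)) ≤ c := by
    intro K c hc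
    have h1 := ht.const_mul K
    rw [mul_zero] at h1
    exact (h1.eventually_lt_const hc).mono fun n hn => hn.le
  have hall := (hev L ε hε0).and ((hev L (μ / 2) (by positivity)).and
    ((hev (8 * L / μ) 1 one_pos).and ((hev (L * (3 * (8 * L / μ))) ε hε0).and
    ((hev (2 / μ * (2 * L)) (1 / 2) (by norm_num)).and
    ((hev (2 / μ * (2 * L) * (3 * (8 * L / μ))) (1 / 2) (by norm_num)).and
    (eventually_ge_atTop 1))))))
  obtain ⟨n₀, hn₀⟩ := eventually_atTop.1 hall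
  refine ⟨ρ, hρ0, hρ1, n₀, fun n hn s hs1 hs2 f hf => ?_⟩
  obtain ⟨c1, c2, c3, c4, c5, c6, hn1⟩ := hn₀ n hn
  have hs0 : s ≠ 0 := by
    rintro rfl
    rw [norm_zero] at hs1
    linarith
  have hevs : ∀ i y, (cp D (Polynomial.C s * P) i).eval y = s * (cp D P i).eval y := by
    intro i y
    rw [cp_smul, Polynomial.eval_mul, Polynomial.eval_C]
  have hLs : ∀ i : Bool, ∀ y z : ℂ, ‖y‖ ≤ 3 → ‖z‖ ≤ 3 →
      ‖(cp D (Polynomial.C s * P) i).eval y - (cp D (Polynomial.C s * P) i).eval z‖ ≤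
        L * ‖y - z‖ ∧
      ‖(cp D Q i).eval y - (cp D Q i).eval z‖ ≤ L * ‖y - z‖ := by
    intro i y z hy hz
    obtain ⟨k1, k2⟩ := hL₀ i y z hy hz
    have hnn := norm_nonneg (y - z)
    constructor
    · rw [hevs, hevs, ← mul_sub, norm_mul]
      calc ‖s‖ * ‖(cp D P i).eval y - (cp D P i).eval z‖ ≤ (b + 1) * (L₀ * ‖y - z‖) := by
            apply mul_le_mul (by linarith) k1 (norm_nonneg _) (by positivity)
        _ = L * ‖y - z‖ := by rw [hLdef]; ring
    · refine k2.trans ?_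
      apply mul_le_mul_of_nonneg_right _ hnn
      rw [hLdef]
      nlinarith
  have hmul : ∀ z : ℂ, μ₀ ≤ ‖z‖ → μ ≤ ‖s * z‖ ∧ μ ≤ ‖z‖ := by
    intro z hz
    have h2 : min a 1 ≤ ‖s‖ := (min_le_left _ _).trans hs1
    have h3 : min a 1 ≤ 1 := min_le_right _ _
    constructor
    · rw [norm_mul, hμdef]
      exact mul_le_mul h2 hz hμ₀.le (norm_nonneg _)
    · rw [hμdef]
      calc min a 1 * μ₀ ≤ 1 * μ₀ := by gcongr
        _ ≤ ‖z‖ := by linarith
  have his : ∀ i, μ ≤ ‖(cp D (Polynomial.C s * P) i).eval 0‖ ∨ μ ≤ ‖(cp D Q i).eval 0‖ := by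
    intro i
    rw [hevs]
    rcases hi₀ i with h | h
    · exact Or.inl (hmul _ h).1
    · exact Or.inr (hmul _ h).2
  have hus : ∀ u : ℂ, ‖u‖ = 1 → μ ≤ ‖(Polynomial.C s * P).eval u‖ ∨ μ ≤ ‖Q.eval u‖ := by
    intro u hu1
    rw [Polynomial.eval_mul, Polynomial.eval_C]
    rcases hu₀ u hu1 with h | h
    · exact Or.inl (hmul _ h).1
    · exact Or.inr (hmul _ h).2
  have hDs : D = max (Polynomial.C s * P).natDegree Q.natDegree := by
    rw [Polynomial.natDegree_C_mul hs0, hD]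
  have hfψ := map_ch hDs hD1 (by omega : 0 < n) hf
  have hstep : ∀ i, StepOK (Polynomial.C s * P) Q D r n i := fun i =>
    step_ok hη0 hμ hr hε hε0 hL0 hLs (his i) hus hn1 rfl c1 c2 c3 c4 c5 c6 (Or.inl (by
      rw [hevs]
      exact hg i s hs1 hs2 0 (by rw [norm_zero]; exact hρ0.le)))
  choose κ h hm hl hor using hstep
  have hconj : ∀ i, ∃ τ : ℕ, 0 < τ ∧ ∀ x : ℂ, ‖x‖ ≤ r → f^[τ] (ch i x) = ch (κ i) (h i x) := by
    intro i
    rcases hor i with h1 | h1
    · refine ⟨1, one_pos, fun x hx => ?_⟩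
      rw [Function.iterate_one, hfψ, h1 x hx]
    · refine ⟨2, two_pos, fun x hx => ?_⟩
      obtain ⟨h2, h3⟩ := h1 x hx
      have h4 := hfψ false ((cp D (Polynomial.C s * P) i).eval (x ^ n) /
        (cp D Q i).eval (x ^ n))
      rw [cp_false, cp_false, h3, ch_false] at h4
      rw [Function.iterate_succ_apply, Function.iterate_one, hfψ, pr_ne h2]
      exact h4
  choose τ hτ0 hτ using hconj
  have hS : ∀ i x, ‖x‖ ≤ r → Sinks f (ch i x) := fun i x hx =>
    two_charts' hf.cont hr0 hτ0 continuous_ch isOpenMap_ch hτ hm hl hx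
  refine ⟨fun i => hS i 0 (by rw [norm_zero]; exact hr0.le), fun w hw => ?_⟩
  have hpq : s * P.eval w ≠ 0 ∨ Q.eval w ≠ 0 := by
    rcases coprime_eval hc w with h | h
    · exact Or.inl (mul_ne_zero hs0 h)
    · exact Or.inr h
  apply good_sinks hη0 hS hpq
  rcases hw with hw | hw
  · have := hg false s hs1 hs2 w hw
    rwa [cp_false, cp_false] at this
  · have hw0 : w ≠ 0 := by
      rintro rfl
      rw [norm_zero] at hw
      have := inv_pos.2 hρ0
      linarith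
    have hy : w⁻¹ ≠ 0 := inv_ne_zero hw0
    have h1 := hg true s hs1 hs2 w⁻¹ (by
      rw [norm_inv]
      exact inv_le_of_inv_le₀ hρ0 hw)
    rw [cp_true_eval hPd hy, cp_true_eval hQd hy, inv_inv] at h1
    apply good_scale (pow_ne_zero D hy)
    rwa [show (w⁻¹) ^ D * (s * P.eval w) = s * ((w⁻¹) ^ D * P.eval w) by ring]

/-- A point whose orbit meets the capture region is attracted. -/
theorem orbit_sinks {P Q : Polynomial ℂ} {D : ℕ}
    (hD : D = max P.natDegree Q.natDegree) (hD1 : 0 < D) {n : ℕ} (hn : 0 < n) {s : ℂ} (hs : s ≠ 0)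
    {f : OnePoint ℂ → OnePoint ℂ}
    (hf : IsRat f (Polynomial.expand ℂ n (Polynomial.C s * P)) (Polynomial.expand ℂ n Q))
    (hS : ∀ i, Sinks f (ch i 0)) {ρ : ℝ}
    (hcap : ∀ w : ℂ, (‖w‖ ≤ ρ ∨ ρ⁻¹ ≤ ‖w‖) → Sinks f (pr (s * P.eval w) (Q.eval w))) (k : ℕ) :
    ∀ w : ℂ, (‖(fun w : ℂ => (s * P.eval w / Q.eval w) ^ n)^[k] w‖ ≤ ρ ∨
      ρ⁻¹ ≤ ‖(fun w : ℂ => (s * P.eval w / Q.eval w) ^ n)^[k] w‖) →
      Sinks f (pr (s * P.eval w) (Q.eval w)) := by
  induction k with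
  | zero => exact hcap
  | succ k ih =>
    intro w hw
    by_cases hq : Q.eval w = 0
    · rw [hq, pr_zero]
      have e1 : ch true 0 = ∞ := by simp [ch, sinv_zero]
      rw [← e1]
      exact hS true
    · rw [Function.iterate_succ_apply] at hw
      have h1 := ih _ hw
      apply sinks_of_image hf.cont
      have hDs : D = max (Polynomial.C s * P).natDegree Q.natDegree := by
        rw [Polynomial.natDegree_C_mul hs, hD]
      have h4 := map_ch hDs hD1 hn hf false (s * P.eval w / Q.eval w)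
      rw [cp_false, cp_false, ch_false, Polynomial.eval_mul, Polynomial.eval_C] at h4
      rw [pr_ne hq]
      simp only at h4 h1
      rw [h4]
      exact h1

end Pool.Agent.Helper134.FD
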