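import Mathlib
import Pool.Agent.H762R2.RtD
import Pool.Agent.Helper134_FD.Capture

/-!
# The constants, and the criterion for hyperbolicity
-/

set_option autoImplicit false

open Set Filter Topology Metric
open scoped OnePoint

namespace Pool.Agent.Helper134.FD

open Pool.Agent.H762R2.Rt Pool.Agent.H462R2.AP Pool.Agent.TH433.MC Pool.Agent.Helper114.Herman
  Pool.Agent.Helper114.Konig

variable {P Q : Polynomial ℂ}

theorem exp_div_pow {n : ℕ} (hn : 1 ≤ n) (ζ : ℂ) : Complex.exp (ζ / n) ^ n = Complex.exp ζ := by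
  rw [← Complex.exp_nat_mul]
  congr 1
  have : (n : ℂ) ≠ 0 := by
    have : n ≠ 0 := by omega
    exact_mod_cast this
  field_simp

theorem W_iter {n : ℕ} (hn : 1 ≤ n) (s y ζ : ℂ) (k : ℕ) :
    W P Q s n ((s * P.eval y / Q.eval y) ^ n) k ζ =
      (fun w : ℂ => (s * Complex.exp (ζ / n) * P.eval w / Q.eval w) ^ n)^[k + 1] y := by
  have h : ∀ w : ℂ, (s * Complex.exp (ζ / n) * P.eval w / Q.eval w) ^ n =
      Complex.exp ζ * (s * P.eval w / Q.eval w) ^ n := by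
    intro w
    rw [← exp_div_pow hn ζ, ← mul_pow]
    congr 1
    ring
  induction k with
  | zero =>
    rw [W_zero, Function.iterate_succ_apply', Function.iterate_zero, id, h]
    ring
  | succ k ih =>
    rw [W_succ, Function.iterate_succ_apply', ← ih, h]

theorem wro_smul (s : ℂ) : (wro (Polynomial.C s * P) Q) = Polynomial.C s * wro P Q := by
  unfold wro
  rw [Polynomial.derivative_C_mul]
  ring

theorem hyp_of_orbits (hc : IsCoprime P Q) {D : ℕ} (hD : D = max P.natDegree Q.natDegree)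
    (hD1 : 0 < D) {n : ℕ} (hn : 1 ≤ n) {s : ℂ} (hs : s ≠ 0) {ρ : ℝ}
    (hcapt : ∀ f : OnePoint ℂ → OnePoint ℂ,
        IsRat f (Polynomial.expand ℂ n (Polynomial.C s * P)) (Polynomial.expand ℂ n Q) →
        (∀ i, Sinks f (ch i 0)) ∧
        ∀ w : ℂ, (‖w‖ ≤ ρ ∨ ρ⁻¹ ≤ ‖w‖) → Sinks f (pr (s * P.eval w) (Q.eval w)))
    (horb : ∀ y : ℂ, (wro P Q).eval y = 0 → ∃ k : ℕ,
      (‖(fun w : ℂ => (s * P.eval w / Q.eval w) ^ n)^[k] y‖ ≤ ρ ∨
      ρ⁻¹ ≤ ‖(fun w : ℂ => (s * P.eval w / Q.eval w) ^ n)^[k] y‖)) :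
    Hyp (Polynomial.C s * Polynomial.expand ℂ n P) (Polynomial.expand ℂ n Q) := by
  have hQ0 : Q ≠ 0 := by
    rintro rfl
    have h2 : IsUnit P := isCoprime_zero_right.1 hc
    have h3 : P.natDegree = 0 := Polynomial.natDegree_eq_zero_of_isUnit h2
    rw [h3] at hD
    simp at hD
    omega
  have hcs : IsCoprime (Polynomial.C s * P) Q := by
    have h1 := coprime_family hc hs 1
    rwa [Polynomial.expand_one, Polynomial.expand_one] at h1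
  have hcop : IsCoprime (Polynomial.expand ℂ n (Polynomial.C s * P))
      (Polynomial.expand ℂ n Q) := hcs.map _
  have hQe : Polynomial.expand ℂ n Q ≠ 0 := (Polynomial.expand_ne_zero (by omega)).2 hQ0
  obtain ⟨f, hf, -⟩ := exists_isRat hcop hQe
  obtain ⟨hS, hcap⟩ := hcapt f hf
  have hDs : D = max (Polynomial.C s * P).natDegree Q.natDegree := by
    rw [Polynomial.natDegree_C_mul hs, hD]
  have key := hyp_of_values hcs hDs hD1 (by omega : 0 < n) hf hS (by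
    intro y hy
    rw [wro_smul, Polynomial.eval_mul, Polynomial.eval_C] at hy
    have hy0 : (wro P Q).eval y = 0 := by
      rcases mul_eq_zero.1 hy with h | h
      · exact absurd h hs
      · exact h
    obtain ⟨k, hk⟩ := horb y hy0
    rw [Polynomial.eval_mul, Polynomial.eval_C]
    exact orbit_sinks hD hD1 (by omega) hs hf hS hcap k y hk)
  rwa [map_mul, Polynomial.expand_C] at key

theorem pow_ev {x K : ℝ} (hx : 1 < x) : ∀ᶠ n : ℕ in atTop, K ≤ x ^ n :=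
  (tendsto_pow_atTop_atTop_of_one_lt hx).eventually_ge_atTop K

theorem pair_ev {a b K : ℝ} (ha : 0 ≤ a) (hab : a < b) :
    ∀ᶠ n : ℕ in atTop, K * a ^ n ≤ b ^ n := by
  have hb : 0 < b := ha.trans_lt hab
  have h1 := (tendsto_pow_atTop_nhds_zero_of_lt_one (div_nonneg ha hb.le)
    ((div_lt_one hb).2 hab)).const_mul K
  rw [mul_zero] at h1
  filter_upwards [h1.eventually_lt_const (by norm_num : (0 : ℝ) < 1)] with n hn
  rw [div_pow, ← mul_div_assoc, div_lt_one (by positivity)] at hn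
  exact hn.le

/-- The constants. -/
theorem setup (hc : IsCoprime P Q) {D : ℕ} (hD : D = max P.natDegree Q.natDegree) (hD1 : 0 < D)
    {r1 r2 : ℝ} (hr1 : 0 < r1) (hr : r1 ≤ r2)
    (h0 : r2 * ‖P.coeff 0‖ < ‖Q.coeff 0‖ ∨ ‖Q.coeff 0‖ < r1 * ‖P.coeff 0‖)
    (hDD : r2 * ‖P.coeff D‖ < ‖Q.coeff D‖ ∨ ‖Q.coeff D‖ < r1 * ‖P.coeff D‖) {m : ℕ}
    (hm : ∀ y : ℂ, (wro P Q).eval y = 0 → r1 * ‖P.eval y‖ ≤ ‖Q.eval y‖ →
      ‖Q.eval y‖ ≤ r2 * ‖P.eval y‖ → (wro P Q).rootMultiplicity y < m) :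
    ∃ ρ c r1' r2' : ℝ, 0 < ρ ∧ ρ < 1 ∧ 0 < c ∧ 0 < r1' ∧ r1' < r1 ∧ r2 < r2' ∧
    (∀ w : ℂ, ‖w‖ ≤ 8 * ρ⁻¹ → r1' * ‖P.eval w‖ ≤ ‖Q.eval w‖ →
      ‖Q.eval w‖ ≤ r2' * ‖P.eval w‖ → ∀ e : ℝ, 0 ≤ e → e ≤ 1 →
      (∀ y ∈ (wro P Q).roots.toFinset, e ≤ ‖w - y‖) →
      c * e ^ (m - 1) ≤ ‖(wro P Q).eval w / (P.eval w * Q.eval w)‖) ∧
    (∀ y : ℂ, (wro P Q).eval y = 0 → r1' * ‖P.eval y‖ ≤ ‖Q.eval y‖ →
      ‖Q.eval y‖ ≤ r2' * ‖P.eval y‖ →
      r1 * ‖P.eval y‖ ≤ ‖Q.eval y‖ ∧ ‖Q.eval y‖ ≤ r2 * ‖P.eval y‖) ∧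
    ∃ n₀ : ℕ, ∀ n : ℕ, n₀ ≤ n → 1 ≤ n ∧
      (∀ s : ℂ, r1 ≤ ‖s‖ → ‖s‖ ≤ r2 → ∀ w : ℂ,
        ρ / Real.exp 1 ≤ ‖(s * P.eval w / Q.eval w) ^ n‖ →
        ‖(s * P.eval w / Q.eval w) ^ n‖ ≤ Real.exp 1 / ρ →
        r1' * ‖P.eval w‖ ≤ ‖Q.eval w‖ ∧ ‖Q.eval w‖ ≤ r2' * ‖P.eval w‖) ∧
      (∀ s : ℂ, r1 ≤ ‖s‖ → ‖s‖ ≤ r2 → ∀ ζ : ℂ, ‖ζ‖ ≤ 1 →
        (∀ y ∈ (wro P Q).roots.toFinset, ∃ k : ℕ,
          ‖W P Q s n ((s * P.eval y / Q.eval y) ^ n) k ζ‖ ≤ ρ ∨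
          ρ⁻¹ ≤ ‖W P Q s n ((s * P.eval y / Q.eval y) ^ n) k ζ‖) →
        Hyp (Polynomial.C (s * Complex.exp (ζ / n)) * Polynomial.expand ℂ n P)
          (Polynomial.expand ℂ n Q)) ∧
      (∀ s : ℂ, ∀ y ∈ (wro P Q).roots.toFinset, ∀ y' ∈ (wro P Q).roots.toFinset,
        ρ / Real.exp 1 ≤ ‖(s * P.eval y / Q.eval y) ^ n‖ →
        ‖(s * P.eval y / Q.eval y) ^ n‖ ≤ Real.exp 1 / ρ →
        ρ / Real.exp 1 ≤ ‖(s * P.eval y' / Q.eval y') ^ n‖ →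
        ‖(s * P.eval y' / Q.eval y') ^ n‖ ≤ Real.exp 1 / ρ →
        ‖P.eval y‖ * ‖Q.eval y'‖ = ‖P.eval y'‖ * ‖Q.eval y‖) := by
  have hw : wro P Q ≠ 0 := by
    apply wro_ne_zero hc
    rw [← hD]; exact hD1
  have hr2 : 0 < r2 := hr1.trans_le hr
  obtain ⟨δ, hδ0, hδ1, k0, k1, kA⟩ := exists_extend (P := P) (Q := Q) hr1
    (wro P Q).roots.toFinset h0 hDD
  have hmem : ∀ y : ℂ, (wro P Q).eval y = 0 → y ∈ (wro P Q).roots.toFinset := by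
    intro y hy
    rw [Multiset.mem_toFinset, Polynomial.mem_roots hw]
    exact hy
  have hact : ∀ y : ℂ, (wro P Q).eval y = 0 → (r1 - δ) * ‖P.eval y‖ ≤ ‖Q.eval y‖ →
      ‖Q.eval y‖ ≤ (r2 + δ) * ‖P.eval y‖ →
      r1 * ‖P.eval y‖ ≤ ‖Q.eval y‖ ∧ ‖Q.eval y‖ ≤ r2 * ‖P.eval y‖ :=
    fun y hy h1 h2 => kA y (hmem y hy) h1 h2
  have hr1' : 0 < r1 - δ := by linarith
  obtain ⟨ρ, hρ0, hρ1, n₁, hcap⟩ := capture hc hD hD1 hr1' (by linarith : r1 - δ ≤ r2 + δ) k0 k1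
  obtain ⟨c, hc0, hlow⟩ := exists_low hc hw (r1 := r1 - δ) (r2 := r2 + δ) (ρ := 8 * ρ⁻¹) (m := m)
    hr1' (fun y hy h1 h2 => hm y hy (hact y hy h1 h2).1 (hact y hy h1 h2).2)
  refine ⟨ρ, c, r1 - δ, r2 + δ, hρ0, hρ1, hc0, hr1', by linarith, by linarith, hlow, hact, ?_⟩
  have he : 0 < Real.exp 1 := Real.exp_pos 1
  have he1 : 1 ≤ Real.exp 1 := Real.one_le_exp zero_le_one
  have hpairs : ∀ᶠ n : ℕ in atTop, ∀ y ∈ (wro P Q).roots.toFinset,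
      ∀ y' ∈ (wro P Q).roots.toFinset, ‖P.eval y‖ * ‖Q.eval y'‖ < ‖P.eval y'‖ * ‖Q.eval y‖ →
      ((Real.exp 1 / ρ) ^ 2 + 1) * (‖P.eval y‖ * ‖Q.eval y'‖) ^ n ≤
        (‖P.eval y'‖ * ‖Q.eval y‖) ^ n := by
    rw [Finset.eventually_all]
    intro y _
    rw [Finset.eventually_all]
    intro y' _
    by_cases h : ‖P.eval y‖ * ‖Q.eval y'‖ < ‖P.eval y'‖ * ‖Q.eval y‖
    · exact (pair_ev (by positivity) h).mono fun n hn _ => hn
    · exact Eventually.of_forall fun n hn => absurd hn h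
  have e1 : 1 < r1 / (r1 - δ) := by rw [lt_div_iff₀ hr1']; linarith
  have e2 : 1 < (r2 + δ) / r2 := by rw [lt_div_iff₀ hr2]; linarith
  obtain ⟨n₀, hn₀⟩ := eventually_atTop.1 ((eventually_ge_atTop n₁).and
    ((eventually_ge_atTop 1).and ((pow_ev (K := Real.exp 1 / ρ) e1).and
    ((pow_ev (K := Real.exp 1 / ρ) e2).and hpairs))))
  refine ⟨n₀, fun n hn => ?_⟩
  obtain ⟨hnn1, hn1, hp1, hp2, hpair⟩ := hn₀ n hn
  have hn0' : n ≠ 0 := by omega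
  have hρe : ρ / Real.exp 1 = (Real.exp 1 / ρ)⁻¹ := (inv_div _ _).symm
  have heρ : 0 < Real.exp 1 / ρ := by positivity
  -- consequences of the two bounds
  have hP : ∀ (s w : ℂ), ρ / Real.exp 1 ≤ ‖(s * P.eval w / Q.eval w) ^ n‖ →
      0 < ‖s‖ ∧ 0 < ‖P.eval w‖ ∧ 0 < ‖Q.eval w‖ := by
    intro s w h
    have h1 : 0 < ‖(s * P.eval w / Q.eval w) ^ n‖ := lt_of_lt_of_le (by positivity) h
    have h2 : (s * P.eval w / Q.eval w) ≠ 0 := by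
      intro h3
      rw [h3, zero_pow hn0', norm_zero] at h1
      exact lt_irrefl _ h1
    refine ⟨norm_pos_iff.2 ?_, norm_pos_iff.2 ?_, norm_pos_iff.2 ?_⟩
    · rintro rfl
      apply h2
      simp
    · intro h3
      apply h2
      simp [h3]
    · intro h3
      apply h2
      simp [h3]
  refine ⟨hn1, ?_, ?_, ?_⟩
  · intro s hs1 hs2 w h1 h2
    obtain ⟨hs0, hP0, hQ0⟩ := hP s w h1
    rw [norm_pow, norm_div, norm_mul] at h1 h2
    constructor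
    · -- `x ^ n ≤ e / ρ ≤ (r1 / r1') ^ n`
      have h3 : (‖s‖ * ‖P.eval w‖ / ‖Q.eval w‖) ^ n ≤ (r1 / (r1 - δ)) ^ n := h2.trans hp1
      have h4 : ‖s‖ * ‖P.eval w‖ / ‖Q.eval w‖ ≤ r1 / (r1 - δ) :=
        (pow_le_pow_iff_left₀ (by positivity) (by positivity) hn0').1 h3
      rw [div_le_div_iff₀ hQ0 hr1'] at h4
      have h5 : r1 * ((r1 - δ) * ‖P.eval w‖) ≤ r1 * ‖Q.eval w‖ := by
        have h6 : r1 * (‖P.eval w‖ * (r1 - δ)) ≤ ‖s‖ * (‖P.eval w‖ * (r1 - δ)) := by gcongr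
        linarith
      exact le_of_mul_le_mul_left h5 hr1
    · have h3 : ((r2 + δ) / r2)⁻¹ ^ n ≤ (‖s‖ * ‖P.eval w‖ / ‖Q.eval w‖) ^ n := by
        refine le_trans ?_ h1
        rw [inv_pow, hρe]
        exact inv_anti₀ heρ hp2
      have h4 : ((r2 + δ) / r2)⁻¹ ≤ ‖s‖ * ‖P.eval w‖ / ‖Q.eval w‖ :=
        (pow_le_pow_iff_left₀ (by positivity) (by positivity) hn0').1 h3
      rw [inv_div, div_le_div_iff₀ (by linarith) hQ0] at h4
      have h5 : r2 * ‖Q.eval w‖ ≤ r2 * ((r2 + δ) * ‖P.eval w‖) := by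
        have h6 : ‖s‖ * (‖P.eval w‖ * (r2 + δ)) ≤ r2 * (‖P.eval w‖ * (r2 + δ)) := by gcongr
        linarith
      exact le_of_mul_le_mul_left h5 hr2
  · intro s hs1 hs2 ζ hζ horb
    have hs0 : 0 < ‖s‖ := hr1.trans_le hs1
    have hexpn : ‖Complex.exp (ζ / n)‖ ^ n = Real.exp ζ.re := by
      rw [← norm_pow, exp_div_pow hn1, Complex.norm_exp]
    have hre := abs_le.1 ((Complex.abs_re_le_norm ζ).trans hζ)
    have hsn : ‖s * Complex.exp (ζ / n)‖ ^ n = ‖s‖ ^ n * Real.exp ζ.re := by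
      rw [norm_mul, mul_pow, hexpn]
    have hρinv : Real.exp 1 ≤ Real.exp 1 / ρ := by
      rw [le_div_iff₀ hρ0]; nlinarith
    have hub : ‖s * Complex.exp (ζ / n)‖ ≤ r2 + δ := by
      apply (pow_le_pow_iff_left₀ (norm_nonneg _) (by linarith) hn0').1
      rw [hsn]
      calc ‖s‖ ^ n * Real.exp ζ.re ≤ r2 ^ n * Real.exp 1 := by
            gcongr
            exact hre.2
        _ ≤ r2 ^ n * ((r2 + δ) / r2) ^ n := by
            gcongr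
            exact hρinv.trans hp2
        _ = (r2 + δ) ^ n := by
            rw [← mul_pow]
            congr 1
            field_simp
    have hlb : r1 - δ ≤ ‖s * Complex.exp (ζ / n)‖ := by
      apply (pow_le_pow_iff_left₀ hr1'.le (norm_nonneg _) hn0').1
      rw [hsn]
      have h1 : (r1 - δ) ^ n * Real.exp 1 ≤ ‖s‖ ^ n := by
        calc (r1 - δ) ^ n * Real.exp 1 ≤ (r1 - δ) ^ n * (r1 / (r1 - δ)) ^ n := by
              gcongr
              exact hρinv.trans hp1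
          _ = r1 ^ n := by
              rw [← mul_pow]
              congr 1
              field_simp
          _ ≤ ‖s‖ ^ n := by gcongr
      have h2 : Real.exp (-1) ≤ Real.exp ζ.re := by
        rw [Real.exp_le_exp]; exact hre.1
      calc (r1 - δ) ^ n = (r1 - δ) ^ n * Real.exp 1 * Real.exp (-1) := by
            rw [mul_assoc, ← Real.exp_add]; simp
        _ ≤ ‖s‖ ^ n * Real.exp ζ.re := by gcongr
    have hsne : s * Complex.exp (ζ / n) ≠ 0 :=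
      mul_ne_zero (norm_pos_iff.1 hs0) (Complex.exp_ne_zero _)
    apply hyp_of_orbits hc hD hD1 hn1 hsne (ρ := ρ)
    · exact fun f hf => hcap n hnn1 _ hlb hub f hf
    · intro y hy
      obtain ⟨k, hk⟩ := horb y (hmem y hy)
      rw [W_iter hn1] at hk
      exact ⟨k + 1, hk⟩
  · intro s y hy y' hy' h1 h2 h3 h4
    obtain ⟨hs0, hP0, hQ0⟩ := hP s y h1
    obtain ⟨-, hP0', hQ0'⟩ := hP s y' h3
    by_contra hne
    have main : ∀ y y' : ℂ, y ∈ (wro P Q).roots.toFinset → y' ∈ (wro P Q).roots.toFinset →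
        0 < ‖P.eval y‖ → 0 < ‖Q.eval y‖ → 0 < ‖P.eval y'‖ → 0 < ‖Q.eval y'‖ →
        ρ / Real.exp 1 ≤ ‖(s * P.eval y / Q.eval y) ^ n‖ →
        ‖(s * P.eval y' / Q.eval y') ^ n‖ ≤ Real.exp 1 / ρ →
        ¬ ‖P.eval y‖ * ‖Q.eval y'‖ < ‖P.eval y'‖ * ‖Q.eval y‖ := by
      intro y y' hy hy' hP0 hQ0 hP0' hQ0' h1 h4 hlt
      have h5 := hpair y hy y' hy' hlt
      rw [norm_pow, norm_div, norm_mul, div_pow] at h1 h4
      set p := ‖P.eval y‖ with hp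
      set q := ‖Q.eval y‖ with hq
      set p' := ‖P.eval y'‖ with hp'
      set q' := ‖Q.eval y'‖ with hq'
      rw [div_le_iff₀ (by positivity), div_mul_eq_mul_div, le_div_iff₀ hρ0] at h4
      rw [le_div_iff₀ (by positivity), div_mul_eq_mul_div, div_le_iff₀ he] at h1
      -- `ρ q ^ n ≤ (s p) ^ n e`, `(s p') ^ n ρ ≤ e q' ^ n`
      rw [mul_pow] at h1 h4 h5
      rw [mul_pow] at h5
      have h6 : (‖s‖ ^ n * p' ^ n * ρ) * (ρ * q ^ n) ≤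
          (Real.exp 1 * q' ^ n) * (‖s‖ ^ n * p ^ n * Real.exp 1) := by
        apply mul_le_mul h4 h1 (by positivity) (by positivity)
      have h7 : ‖s‖ ^ n * (ρ ^ 2 * (p' ^ n * q ^ n)) ≤
          ‖s‖ ^ n * (Real.exp 1 ^ 2 * (p ^ n * q' ^ n)) := by
        calc ‖s‖ ^ n * (ρ ^ 2 * (p' ^ n * q ^ n)) = (‖s‖ ^ n * p' ^ n * ρ) * (ρ * q ^ n) := by ring
          _ ≤ _ := h6
          _ = _ := by ring
      have h8 := le_of_mul_le_mul_left h7 (by positivity)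
      have h9 : ρ ^ 2 * (((Real.exp 1 / ρ) ^ 2 + 1) * (p ^ n * q' ^ n)) ≤
          ρ ^ 2 * (p' ^ n * q ^ n) := by gcongr
      have h10 : ρ ^ 2 * (((Real.exp 1 / ρ) ^ 2 + 1) * (p ^ n * q' ^ n)) =
          Real.exp 1 ^ 2 * (p ^ n * q' ^ n) + ρ ^ 2 * (p ^ n * q' ^ n) := by
        field_simp
      have h11 : 0 < ρ ^ 2 * (p ^ n * q' ^ n) := by positivity
      linarith
    rcases lt_or_gt_of_ne hne with hlt | hlt
    · exact main y y' hy hy' hP0 hQ0 hP0' hQ0' h1 h4 hlt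
    · exact main y' y hy' hy hP0' hQ0' hP0 hQ0 h3 h2 hlt

end Pool.Agent.Helper134.FD
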